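import Pool.Agent.H84.CP.Bn

set_option autoImplicit false

/-!
Row CP_Bcd. The size of a Bohr set (pigeonhole).

`s = ⌈1/ε⌉₊`, the map `x ↦ (⌊s * (γ * x).val / N⌋₊)_γ` takes values in `Π_γ {0..s-1}`; a largest
fibre has at least `N / s^|Γ|` elements, `s ≤ 1 + 1/ε`, and `x - x0` is in the Bohr set for `x, x0`
in the same fibre (`(γ (x - x0)).val / N` and `(γ x).val / N - (γ x0).val / N` differ by an integer,
the latter is `< 1/s ≤ ε` in absolute value; use `bn_eq` and `round_le`).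
-/

namespace Pool.H84.CP

theorem Bcd_int {N : ℕ} [NeZero N] (a b : ZMod N) :
    ∃ z : ℤ, ((a - b).val : ℝ) / (N : ℝ) - ((a.val : ℝ) / (N : ℝ) - (b.val : ℝ) / (N : ℝ)) = z := by
  have hN : (N : ℝ) ≠ 0 := by exact_mod_cast NeZero.ne N
  have h0 : (((((a - b).val : ℤ) - (a.val : ℤ) + (b.val : ℤ) : ℤ)) : ZMod N) = 0 := by
    push_cast
    simp only [ZMod.natCast_val, ZMod.cast_id', id_eq]
    ring
  rw [ZMod.intCast_zmod_eq_zero_iff_dvd] at h0
  obtain ⟨z, hz⟩ := h0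
  refine ⟨z, ?_⟩
  have hz' : ((a - b).val : ℝ) - (a.val : ℝ) + (b.val : ℝ) = (N : ℝ) * z := by exact_mod_cast hz
  field_simp
  linarith

theorem Bcd_close {s : ℕ} (hs : 0 < s) (a b : ℝ) (ha : 0 ≤ a) (hb : 0 ≤ b)
    (h : ⌊(s : ℝ) * a⌋₊ = ⌊(s : ℝ) * b⌋₊) : |a - b| ≤ 1 / (s : ℝ) := by
  have hs' : (0 : ℝ) < s := by exact_mod_cast hs
  have h1 : (⌊(s : ℝ) * a⌋₊ : ℝ) ≤ (s : ℝ) * a := Nat.floor_le (by positivity)
  have h2 : (s : ℝ) * a < (⌊(s : ℝ) * a⌋₊ : ℝ) + 1 := Nat.lt_floor_add_one _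
  have h3 : (⌊(s : ℝ) * b⌋₊ : ℝ) ≤ (s : ℝ) * b := Nat.floor_le (by positivity)
  have h4 : (s : ℝ) * b < (⌊(s : ℝ) * b⌋₊ : ℝ) + 1 := Nat.lt_floor_add_one _
  rw [h] at h1 h2
  rw [abs_le, le_div_iff₀ hs', neg_le_iff_add_nonneg]
  constructor
  · have : 0 ≤ (s : ℝ) * (a - b + 1 / (s : ℝ)) := by
      have e : (s : ℝ) * (a - b + 1 / (s : ℝ)) = (s : ℝ) * a - (s : ℝ) * b + 1 := by
        field_simp
      rw [e]; linarith
    exact nonneg_of_mul_nonneg_right this hs'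
  · nlinarith

theorem bohr_card {N : ℕ} [NeZero N] (Γ : Finset (ZMod N)) (ε : ℝ) (hε : 0 < ε)
    (P : Finset (ZMod N)) (hP : ∀ x, x ∈ P ↔ ∀ γ ∈ Γ, bn (γ * x) ≤ ε) :
    (N : ℝ) ≤ (P.card : ℝ) * (1 + 1 / ε) ^ Γ.card := by
  have hNpos : (0 : ℝ) < (N : ℝ) := by exact_mod_cast Nat.pos_of_ne_zero (NeZero.ne N)
  obtain ⟨s, hsdef⟩ : ∃ s : ℕ, s = ⌈1 / ε⌉₊ := ⟨_, rfl⟩
  have hs : 0 < s := by
    rw [hsdef]; exact Nat.ceil_pos.mpr (by positivity)
  have hs' : (0 : ℝ) < s := by exact_mod_cast hs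
  have hs1 : (1 : ℝ) / ε ≤ s := by rw [hsdef]; exact Nat.le_ceil _
  have hs2 : (s : ℝ) ≤ 1 + 1 / ε := by
    have := Nat.ceil_lt_add_one (show (0 : ℝ) ≤ 1 / ε by positivity)
    rw [hsdef]; linarith
  have hse : 1 / (s : ℝ) ≤ ε := by
    rw [div_le_iff₀ hs']
    rw [div_le_iff₀ hε] at hs1
    linarith
  have hlt : ∀ y : ZMod N, ⌊(s : ℝ) * ((y.val : ℝ) / (N : ℝ))⌋₊ < s := by
    intro y
    rw [Nat.floor_lt (by positivity)]
    have h1 : (y.val : ℝ) / (N : ℝ) < 1 := by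
      rw [div_lt_one hNpos]
      exact_mod_cast ZMod.val_lt y
    nlinarith
  let g : ZMod N → (Γ → Fin s) := fun x γ =>
    ⟨⌊(s : ℝ) * ((((γ : ZMod N) * x).val : ℝ) / (N : ℝ))⌋₊, hlt _⟩
  have hfib : ∀ v : Γ → Fin s, ((Finset.univ : Finset (ZMod N)).filter (fun x => g x = v)).card ≤ P.card := by
    intro v
    rcases Finset.eq_empty_or_nonempty ((Finset.univ : Finset (ZMod N)).filter (fun x => g x = v)) with h | h
    · rw [h]; simp
    · obtain ⟨x0, hx0⟩ := h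
      rw [Finset.mem_filter] at hx0
      refine Finset.card_le_card_of_injOn (fun x => x - x0) ?_ ?_
      · intro x hx
        rw [Finset.mem_coe, Finset.mem_filter] at hx
        rw [Finset.mem_coe, hP]
        intro γ hγ
        obtain ⟨z, hz⟩ := Bcd_int (γ * x) (γ * x0)
        have he : γ * (x - x0) = γ * x - γ * x0 := by ring
        rw [he, bn_eq _ _ ⟨z, hz⟩]
        have hr := round_le ((((γ * x).val : ℝ) / (N : ℝ)) - (((γ * x0).val : ℝ) / (N : ℝ))) 0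
        have hgg : g x = g x0 := by rw [hx.2, hx0.2]
        have hg2 := congrFun hgg ⟨γ, hγ⟩
        have hg3 : ⌊(s : ℝ) * (((γ * x).val : ℝ) / (N : ℝ))⌋₊
            = ⌊(s : ℝ) * (((γ * x0).val : ℝ) / (N : ℝ))⌋₊ := congrArg Fin.val hg2
        have hc := Bcd_close hs _ _ (by positivity) (by positivity) hg3
        have hr' : |(((γ * x).val : ℝ) / (N : ℝ) - ((γ * x0).val : ℝ) / (N : ℝ))
            - ((round (((γ * x).val : ℝ) / (N : ℝ) - ((γ * x0).val : ℝ) / (N : ℝ)) : ℤ) : ℝ)|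
            ≤ |((γ * x).val : ℝ) / (N : ℝ) - ((γ * x0).val : ℝ) / (N : ℝ)| := by
          simpa using hr
        linarith
      · intro a _ b _ hab
        simpa using hab
  have hcard : N = ∑ v : Γ → Fin s, ((Finset.univ : Finset (ZMod N)).filter (fun x => g x = v)).card := by
    rw [← Finset.card_eq_sum_card_fiberwise (f := g) (s := (Finset.univ : Finset (ZMod N)))
      (t := (Finset.univ : Finset (Γ → Fin s))) (fun x _ => Finset.mem_coe.mpr (Finset.mem_univ _))]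
    rw [Finset.card_univ, ZMod.card]
  have hle : N ≤ s ^ Γ.card * P.card := by
    calc N = _ := hcard
      _ ≤ ∑ _v : Γ → Fin s, P.card := Finset.sum_le_sum (fun v _ => hfib v)
      _ = s ^ Γ.card * P.card := by
        rw [Finset.sum_const, Finset.card_univ, Fintype.card_fun, Fintype.card_fin,
          Fintype.card_coe, smul_eq_mul]
  have hle' : (N : ℝ) ≤ (s : ℝ) ^ Γ.card * (P.card : ℝ) := by exact_mod_cast hle
  have hpow : (s : ℝ) ^ Γ.card ≤ (1 + 1 / ε) ^ Γ.card := pow_le_pow_left₀ hs'.le hs2 _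
  calc (N : ℝ) ≤ (s : ℝ) ^ Γ.card * (P.card : ℝ) := hle'
    _ ≤ (1 + 1 / ε) ^ Γ.card * (P.card : ℝ) := mul_le_mul_of_nonneg_right hpow (Nat.cast_nonneg _)
    _ = (P.card : ℝ) * (1 + 1 / ε) ^ Γ.card := by ring

end Pool.H84.CP
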