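import Mathlib

set_option autoImplicit false

/-!
Convex progressions and Bohr sets in `ZMod N` (MP_169871_nt, hand-in ConvexProgressions).
-/

namespace Pool.H84.CP

/-- The distance of `y / N` to the nearest integer. -/
noncomputable def bn {N : ℕ} (y : ZMod N) : ℝ :=
  |((y.val : ℝ) / (N : ℝ)) - ((round ((y.val : ℝ) / (N : ℝ)) : ℤ) : ℝ)|

/-- `P` is a symmetric convex progression of dimension `d` in `Z_N`: the image of the integer
points of a symmetric convex set `K` in `R^d` under a homomorphism from `Z^d` to `Z_N`. -/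
def IsConvexProgression {N : ℕ} (d : ℕ) (P : Finset (ZMod N)) : Prop :=
  ∃ (K : Set (Fin d → ℝ)) (φ : (Fin d → ℤ) →+ ZMod N), Convex ℝ K ∧ (∀ v ∈ K, -v ∈ K) ∧
    ∀ x : ZMod N, x ∈ P ↔ ∃ n : Fin d → ℤ, (fun i => (n i : ℝ)) ∈ K ∧ φ n = x

end Pool.H84.CP
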