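import Pool.Agent.H84.CP.Defs

set_option autoImplicit false

/-!
Row CP_Bn. Elementary facts on `bn`.

`bn_eq`: `y.val / N` and `r` differ by an integer, so they have the same distance to the nearest
integer (`round` of a translate by an integer).

`bn_digits`: base `q` digits. If `‖t‖ ≤ 1/(2q)` then `‖q t‖ = q ‖t‖`; induction on `J` (apply it
to `y` and to `q y`): `‖y‖ = ‖q y‖ / q ≤ ...`.
-/

namespace Pool.H84.CP

theorem bn_eq {N : ℕ} [NeZero N] (y : ZMod N) (r : ℝ)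
    (h : ∃ z : ℤ, (y.val : ℝ) / (N : ℝ) - r = z) :
    bn y = |r - ((round r : ℤ) : ℝ)| := by
  obtain ⟨z, hz⟩ := h
  have h1 : (y.val : ℝ) / (N : ℝ) = r + (z : ℝ) := by linarith
  unfold bn
  rw [h1, round_add_intCast]
  congr 1
  push_cast
  ring

theorem Bn_round {x : ℝ} (hx : |x| ≤ 1 / 2) : |x - ((round x : ℤ) : ℝ)| = |x| := by
  apply le_antisymm
  · have := round_le x 0
    simpa using this
  · by_cases h0 : round x = 0
    · rw [h0]; simp
    · have h1 : (1 : ℝ) ≤ |((round x : ℤ) : ℝ)| := by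
        have : (1 : ℤ) ≤ |round x| := Int.one_le_abs h0
        exact_mod_cast this
      have h2 : |((round x : ℤ) : ℝ)| ≤ |x - ((round x : ℤ) : ℝ)| + |x| := by
        have := abs_sub_abs_le_abs_sub ((round x : ℤ) : ℝ) x
        rw [abs_sub_comm] at this
        linarith
      linarith

theorem Bn_step {N : ℕ} [NeZero N] (q : ℕ) (hq : 2 ≤ q) (y : ZMod N)
    (h : bn y ≤ 1 / (2 * (q : ℝ))) : bn ((q : ZMod N) * y) = q * bn y := by
  have hq0 : (0 : ℝ) < q := by positivity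
  have hN0 : (N : ℝ) ≠ 0 := by exact_mod_cast NeZero.ne N
  set m : ℤ := round ((y.val : ℝ) / (N : ℝ)) with hm
  have e : bn ((q : ZMod N) * y)
      = |(q : ℝ) * ((y.val : ℝ) / (N : ℝ) - (m : ℝ))
        - ((round ((q : ℝ) * ((y.val : ℝ) / (N : ℝ) - (m : ℝ))) : ℤ) : ℝ)| := by
    apply bn_eq
    have h1 : ((((q : ZMod N) * y).val : ℤ) : ZMod N) = ((((q : ℤ) * (y.val : ℤ)) : ℤ) : ZMod N) := by
      push_cast
      rw [ZMod.natCast_zmod_val, ZMod.natCast_zmod_val]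
    rw [ZMod.intCast_eq_intCast_iff_dvd_sub] at h1
    obtain ⟨k, hk⟩ := h1
    refine ⟨(q : ℤ) * m - k, ?_⟩
    have hk' : (q : ℝ) * (y.val : ℝ) - ((((q : ZMod N) * y).val : ℕ) : ℝ) = (N : ℝ) * (k : ℝ) := by
      exact_mod_cast hk
    have h2 : ((((q : ZMod N) * y).val : ℕ) : ℝ) = (q : ℝ) * (y.val : ℝ) - (N : ℝ) * (k : ℝ) := by
      linarith
    rw [h2]
    push_cast
    field_simp
    ring
  have hb : bn y = |(y.val : ℝ) / (N : ℝ) - (m : ℝ)| := rfl
  have h3 : |(q : ℝ) * ((y.val : ℝ) / (N : ℝ) - (m : ℝ))| = q * bn y := by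
    rw [abs_mul, abs_of_pos hq0, hb]
  rw [e, Bn_round, h3]
  rw [h3]
  calc (q : ℝ) * bn y ≤ q * (1 / (2 * (q : ℝ))) := by gcongr
    _ = 1 / 2 := by field_simp

theorem bn_digits {N : ℕ} [NeZero N] (q : ℕ) (hq : 2 ≤ q) (y : ZMod N) (J : ℕ)
    (h : ∀ j ≤ J, bn ((q : ZMod N) ^ j * y) ≤ 1 / (2 * (q : ℝ))) :
    bn y ≤ 1 / (2 * (q : ℝ)) / (q : ℝ) ^ J := by
  have hq0 : (0 : ℝ) < q := by positivity
  induction J generalizing y with
  | zero =>
    have := h 0 le_rfl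
    simpa using this
  | succ J ih =>
    have h1 : bn ((q : ZMod N) * y) ≤ 1 / (2 * (q : ℝ)) / (q : ℝ) ^ J := by
      apply ih
      intro j hj
      have := h (j + 1) (by omega)
      rwa [pow_succ, mul_assoc] at this
    have h2 : bn y ≤ 1 / (2 * (q : ℝ)) := by
      have := h 0 (by omega)
      simpa using this
    rw [Bn_step q hq y h2] at h1
    rw [pow_succ, ← div_div]
    rw [le_div_iff₀ hq0]
    linarith

end Pool.H84.CP
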