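import Pool.Agent.H84.CP.Defs

set_option autoImplicit false

/-!
Row CP_Auer. Auerbach's lemma for a finite set.

`U = span S`, `k = finrank U ≤ d`. Among the `k`-tuples of elements of `S` take one with
`|e.det c|` maximal, `e` any basis of `U` (some tuple is a basis of `U`, with nonzero determinant).
For `s ∈ S` the coefficient `t i` is `e.det (update c i s) / e.det c`
(`Module.Basis.det_smul_mk_coord_eq_det_update`), of absolute value at most `1`.
-/

namespace Pool.H84.CP

theorem Auer_exists_indep {d : ℕ} (S : Finset (Fin d → ℝ)) :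
    ∃ c : Fin (Module.finrank ℝ (Submodule.span ℝ (S : Set (Fin d → ℝ)))) → S,
      LinearIndependent ℝ (fun i => (c i : Fin d → ℝ)) := by
  classical
  obtain ⟨b, hbS, hspan, hli⟩ := exists_linearIndependent ℝ (S : Set (Fin d → ℝ))
  have hfin : b.Finite := S.finite_toSet.subset hbS
  have : Fintype b := hfin.fintype
  have hcard : Module.finrank ℝ (Submodule.span ℝ (S : Set (Fin d → ℝ))) = Fintype.card b := by
    rw [← hspan]
    have := finrank_span_set_eq_card hli
    rw [this, Set.toFinset_card]
  rw [hcard]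
  let e := Fintype.equivFin b
  refine ⟨fun i => ⟨(e.symm i : Fin d → ℝ), hbS (e.symm i).2⟩, ?_⟩
  have := hli.comp e.symm e.symm.injective
  exact this

theorem auerbach {d : ℕ} (S : Finset (Fin d → ℝ)) :
    ∃ (k : ℕ) (c : Fin k → (Fin d → ℝ)), k ≤ d ∧ (∀ i, c i ∈ S) ∧ LinearIndependent ℝ c ∧
      ∀ s ∈ S, ∃ t : Fin k → ℝ, (∀ i, |t i| ≤ 1) ∧ s = ∑ i, t i • c i := by
  classical
  obtain ⟨c0, hc0⟩ := Auer_exists_indep S
  have hS : ∀ s : S, (s : Fin d → ℝ) ∈ Submodule.span ℝ (S : Set (Fin d → ℝ)) :=
    fun s => Submodule.subset_span s.2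
  let e := Module.finBasis ℝ (Submodule.span ℝ (S : Set (Fin d → ℝ)))
  let v : S → Submodule.span ℝ (S : Set (Fin d → ℝ)) := fun s => ⟨s, hS s⟩
  have hv : ∀ s : S, ((v s : Submodule.span ℝ (S : Set (Fin d → ℝ))) : Fin d → ℝ) = s :=
    fun s => rfl
  have : Nonempty (Fin (Module.finrank ℝ (Submodule.span ℝ (S : Set (Fin d → ℝ)))) → S) := ⟨c0⟩
  obtain ⟨c, hc⟩ := Finite.exists_max
    (fun c : Fin (Module.finrank ℝ (Submodule.span ℝ (S : Set (Fin d → ℝ)))) → S =>
      |e.det (fun i => v (c i))|)
  have hdet0 : e.det (fun i => v (c0 i)) ≠ 0 := by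
    have hli : LinearIndependent ℝ (fun i => v (c0 i)) :=
      LinearIndependent.of_comp (Submodule.subtype _) hc0
    have hsp : ⊤ ≤ Submodule.span ℝ (Set.range fun i => v (c0 i)) := by
      rw [LinearIndependent.span_eq_top_of_card_eq_finrank' hli (by simp)]
    exact ((Module.Basis.is_basis_iff_det e).1 ⟨hli, by rw [eq_top_iff]; exact hsp⟩).ne_zero
  have hdet : e.det (fun i => v (c i)) ≠ 0 := by
    intro h
    have := hc c0
    rw [h, abs_zero] at this
    exact hdet0 (abs_eq_zero.1 (le_antisymm this (abs_nonneg _)))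
  obtain ⟨hli, hsp⟩ := (Module.Basis.is_basis_iff_det e).2 (isUnit_iff_ne_zero.2 hdet)
  refine ⟨_, fun i => (c i : Fin d → ℝ), ?_, fun i => (c i).2, ?_, ?_⟩
  · calc _ ≤ Module.finrank ℝ (Fin d → ℝ) := Submodule.finrank_le _
      _ = d := by simp
  · have := hli.map' (Submodule.subtype _) (Submodule.ker_subtype _)
    exact this
  · intro s hs
    have hmk := fun i => Module.Basis.det_smul_mk_coord_eq_det_update (e := e) hli hsp.ge i
    refine ⟨fun i => (Module.Basis.mk hli hsp.ge).coord i (v ⟨s, hs⟩), fun i => ?_, ?_⟩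
    · have h1 := congrArg (fun f => f (v ⟨s, hs⟩)) (hmk i)
      simp only [LinearMap.smul_apply, smul_eq_mul] at h1
      have h2 : (e.det).toMultilinearMap.toLinearMap (fun i => v (c i)) i (v ⟨s, hs⟩)
          = e.det (fun j => v (Function.update c i ⟨s, hs⟩ j)) := by
        rw [MultilinearMap.toLinearMap_apply]
        have h3 : Function.update (fun i => v (c i)) i (v ⟨s, hs⟩)
            = fun j => v (Function.update c i ⟨s, hs⟩ j) := by
          funext j
          by_cases hj : j = i
          · subst hj; simp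
          · simp [Function.update_of_ne hj]
        rw [h3]
        rfl
      rw [h2] at h1
      have h3 := hc (Function.update c i ⟨s, hs⟩)
      rw [← h1, abs_mul] at h3
      have h4 : 0 < |e.det (fun i => v (c i))| := abs_pos.2 hdet
      by_contra h5
      push Not at h5
      nlinarith
    · have h1 := (Module.Basis.mk hli hsp.ge).sum_repr (v ⟨s, hs⟩)
      have h2 := congrArg (fun x : Submodule.span ℝ (S : Set (Fin d → ℝ)) => (x : Fin d → ℝ)) h1
      simp only [Module.Basis.coe_mk] at h2
      rw [AddSubmonoidClass.coe_finsetSum] at h2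
      exact h2.symm

end Pool.H84.CP
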