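import Pool.Agent.H84.CP.Bn

set_option autoImplicit false

/-!
Row CP_Boh. A Bohr set is a convex progression.

`K = {v | ∀ j, |γ_j.val * v 0 / N - v (j+1)| ≤ ε}` (`γ_j` an enumeration of `Γ`, `Fin.cons` or
`Fin.succ` indices), `φ n = (n 0 : ZMod N)`.
-/

namespace Pool.H84.CP

/-- The value of `γ * x` differs from `γ.val * m` by a multiple of `N`. -/
theorem Boh_val {N : ℕ} [NeZero N] (γ : ZMod N) (m : ℤ) :
    ∃ z : ℤ, ((γ * (m : ZMod N)).val : ℝ) / (N : ℝ) - (γ.val : ℝ) * (m : ℝ) / (N : ℝ) = z := by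
  have hN : (N : ℝ) ≠ 0 := by
    exact_mod_cast NeZero.ne N
  have h1 : (((γ * (m : ZMod N)).val : ℤ) : ZMod N) = (((γ.val : ℤ) * m : ℤ) : ZMod N) := by
    push_cast
    rw [ZMod.natCast_zmod_val, ZMod.natCast_zmod_val]
  have h2 := (ZMod.intCast_eq_intCast_iff _ _ N).1 h1
  obtain ⟨z, hz⟩ := h2.symm.dvd
  refine ⟨z, ?_⟩
  have h3 : ((γ * (m : ZMod N)).val : ℝ) - (γ.val : ℝ) * (m : ℝ) = (N : ℝ) * (z : ℝ) := by
    exact_mod_cast hz
  rw [← sub_div, h3]
  field_simp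

theorem bohr_isConvexProgression {N : ℕ} [NeZero N] (Γ : Finset (ZMod N)) (ε : ℝ)
    (P : Finset (ZMod N)) (hP : ∀ x, x ∈ P ↔ ∀ γ ∈ Γ, bn (γ * x) ≤ ε) :
    IsConvexProgression (Γ.card + 1) P := by
  classical
  set g : Fin Γ.card → ZMod N := fun j => ((Γ.equivFin.symm j : Γ) : ZMod N) with hg
  have hgmem : ∀ j, g j ∈ Γ := fun j => (Γ.equivFin.symm j).2
  have hgsurj : ∀ γ ∈ Γ, ∃ j, g j = γ := by
    intro γ hγ
    refine ⟨Γ.equivFin ⟨γ, hγ⟩, ?_⟩
    simp [hg]
  refine ⟨{v | ∀ j : Fin Γ.card, |((g j).val : ℝ) * v 0 / (N : ℝ) - v j.succ| ≤ ε},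
    (Int.castAddHom (ZMod N)).comp (Pi.evalAddMonoidHom (fun _ : Fin (Γ.card + 1) => ℤ) 0),
    ?_, ?_, ?_⟩
  · intro v hv w hw a b ha hb hab
    intro j
    have h1 := hv j
    have h2 := hw j
    have h3 : ((g j).val : ℝ) * (a • v + b • w) 0 / (N : ℝ) - (a • v + b • w) j.succ
        = a * (((g j).val : ℝ) * v 0 / (N : ℝ) - v j.succ)
          + b * (((g j).val : ℝ) * w 0 / (N : ℝ) - w j.succ) := by
      simp only [Pi.add_apply, Pi.smul_apply, smul_eq_mul]
      ring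
    rw [h3]
    calc _ ≤ |a * (((g j).val : ℝ) * v 0 / (N : ℝ) - v j.succ)|
          + |b * (((g j).val : ℝ) * w 0 / (N : ℝ) - w j.succ)| := abs_add_le _ _
      _ = a * |((g j).val : ℝ) * v 0 / (N : ℝ) - v j.succ|
          + b * |((g j).val : ℝ) * w 0 / (N : ℝ) - w j.succ| := by
          rw [abs_mul, abs_mul, abs_of_nonneg ha, abs_of_nonneg hb]
      _ ≤ a * ε + b * ε := by
          exact add_le_add (mul_le_mul_of_nonneg_left h1 ha) (mul_le_mul_of_nonneg_left h2 hb)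
      _ = ε := by rw [← add_mul, hab, one_mul]
  · intro v hv j
    have h1 := hv j
    have h3 : ((g j).val : ℝ) * (-v) 0 / (N : ℝ) - (-v) j.succ
        = -(((g j).val : ℝ) * v 0 / (N : ℝ) - v j.succ) := by
      simp only [Pi.neg_apply]
      ring
    rw [h3, abs_neg]
    exact h1
  · intro x
    rw [hP]
    constructor
    · intro hx
      refine ⟨Fin.cons (x.val : ℤ)
        (fun j => round (((g j).val : ℝ) * ((x.val : ℤ) : ℝ) / (N : ℝ))), ?_, ?_⟩
      · intro j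
        simp only [Fin.cons_zero, Fin.cons_succ]
        have h1 := hx (g j) (hgmem j)
        have h2 : x = (((x.val : ℤ)) : ZMod N) := by
          simp
        have h3 := Boh_val (g j) (x.val : ℤ)
        rw [← h2] at h3
        rw [bn_eq _ _ h3] at h1
        exact h1
      · simp
    · rintro ⟨n, hn, hx⟩ γ hγ
      obtain ⟨j, rfl⟩ := hgsurj γ hγ
      have h1 := hn j
      simp only at h1
      have hx' : ((n 0 : ℤ) : ZMod N) = x := by
        simpa using hx
      have h3 := Boh_val (g j) (n 0)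
      rw [hx'] at h3
      rw [bn_eq _ _ h3]
      exact (round_le _ _).trans h1

end Pool.H84.CP
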