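import Pool.Agent.H84.CP.Defs

set_option autoImplicit false

/-!
Row CP_Chr. Characters of a subgroup of `ZMod N` extend.

`H = range Φ` is cyclic; let `y0 = Φ m0` be a generator, `n0 = addOrderOf y0 = |H|`, so that
`n0 • m0` is in the kernel and `n0 * f m0 = c` is an integer. `y0 * n0 = 0`, so
`y0.val * n0 = N * w`, and `w` is coprime to `n0` (the order is exactly `n0`); take `g` (a natural
number, cast) with `g * w ≡ c mod n0`, then `g * y0.val / N - f m0 = (g w - c) / n0` is an integer.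
For general `m`, `Φ m = t • y0`, `m - t • m0` is in the kernel, so `f m - t f m0` is an integer.
(Or choose the generator `N / n0` of `H`, then `w = 1`.)
-/

namespace Pool.H84.CP

theorem exists_char {N : ℕ} [NeZero N] {G : Type*} [AddCommGroup G] (Φ : G →+ ZMod N)
    (f : G →+ ℝ) (hf : ∀ m, Φ m = 0 → ∃ z : ℤ, f m = z) :
    ∃ g : ZMod N, ∀ m, ∃ z : ℤ, ((g * Φ m).val : ℝ) / (N : ℝ) - f m = z := by
  have hN : N ≠ 0 := NeZero.ne N
  have hNR : (N : ℝ) ≠ 0 := by exact_mod_cast hN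
  have hcyc : IsAddCyclic (AddMonoidHom.range Φ) := inferInstance
  obtain ⟨⟨y0, hy0⟩, hgen⟩ := hcyc.exists_zsmul_surjective
  obtain ⟨m0, rfl⟩ := hy0
  have hgen' : ∀ m, ∃ t : ℤ, Φ m = t • Φ m0 := by
    intro m
    obtain ⟨t, ht⟩ := hgen ⟨Φ m, m, rfl⟩
    refine ⟨t, ?_⟩
    have := congrArg Subtype.val ht
    exact this.symm
  -- numbers
  set v : ℕ := (Φ m0).val with hv
  have hvy : ((v : ℕ) : ZMod N) = Φ m0 := ZMod.natCast_zmod_val _
  set D : ℕ := Nat.gcd N v with hD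
  have hDpos : 0 < D := Nat.gcd_pos_of_pos_left _ (Nat.pos_of_ne_zero hN)
  obtain ⟨n0, hn0⟩ : D ∣ N := Nat.gcd_dvd_left _ _
  obtain ⟨w, hw⟩ : D ∣ v := Nat.gcd_dvd_right _ _
  have hcop : Nat.Coprime n0 w := by
    have h1 : Nat.gcd (D * n0) (D * w) = D := by rw [← hn0, ← hw]
    rw [Nat.gcd_mul_left] at h1
    exact Nat.eq_of_mul_eq_mul_left hDpos (by rw [h1, mul_one])
  have hn0pos : 0 < n0 := by
    rcases Nat.eq_zero_or_pos n0 with h | h
    · rw [h, mul_zero] at hn0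
      exact absurd hn0 hN
    · exact h
  have hker : Φ (n0 • m0) = 0 := by
    rw [map_nsmul, ← hvy, nsmul_eq_mul, ← Nat.cast_mul, hw]
    have : n0 * (D * w) = N * w := by
      rw [hn0]
      ring
    rw [this]
    simp
  obtain ⟨c, hc⟩ := hf _ hker
  rw [map_nsmul, nsmul_eq_mul] at hc
  have hbez := Nat.gcd_eq_gcd_ab n0 w
  rw [hcop] at hbez
  set a : ℤ := Nat.gcdA n0 w with ha
  set b : ℤ := Nat.gcdB n0 w with hb
  have hDR : (D : ℝ) ≠ 0 := by exact_mod_cast hDpos.ne'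
  have hn0R : (n0 : ℝ) ≠ 0 := by exact_mod_cast hn0pos.ne'
  have hbezR : (1 : ℝ) = (n0 : ℝ) * a + (w : ℝ) * b := by exact_mod_cast hbez
  have hfm0 : f m0 = c / n0 := by
    rw [eq_div_iff hn0R, mul_comm]
    exact hc
  refine ⟨(((b * c : ℤ)) : ZMod N), fun m => ?_⟩
  obtain ⟨t, ht⟩ := hgen' m
  have hkm : Φ (m - t • m0) = 0 := by
    rw [map_sub, map_zsmul, ht, sub_self]
  obtain ⟨z1, hz1⟩ := hf _ hkm
  rw [map_sub, map_zsmul, zsmul_eq_mul] at hz1
  have hval : ((((b * c : ℤ)) : ZMod N) * Φ m) = (((b * c * (t * v)) : ℤ) : ZMod N) := by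
    rw [ht, zsmul_eq_mul, ← hvy]
    push_cast
    ring
  have hval2 : (((((b * c : ℤ)) : ZMod N) * Φ m).val : ℤ) = (b * c * (t * v)) % (N : ℤ) := by
    rw [hval, ZMod.val_intCast]
  have hdiv := Int.emod_add_mul_ediv (b * c * (t * v)) (N : ℤ)
  rw [← hval2] at hdiv
  have hdivR : (((((b * c : ℤ)) : ZMod N) * Φ m).val : ℝ) +
      (N : ℝ) * ((b * c * (t * v) / (N : ℤ) : ℤ) : ℝ) = (b : ℝ) * c * (t * v) := by
    exact_mod_cast hdiv
  refine ⟨-(b * c * (t * v) / (N : ℤ)) - z1 - t * a * c, ?_⟩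
  have hNR2 : (N : ℝ) = D * n0 := by exact_mod_cast hn0
  have hvR : (v : ℝ) = D * w := by exact_mod_cast hw
  have hfm : f m = z1 + t * (c / n0) := by
    rw [← hfm0]
    linarith
  rw [hfm]
  have h2 : (((((b * c : ℤ)) : ZMod N) * Φ m).val : ℝ) / N =
      (b : ℝ) * c * (t * v) / N - ((b * c * (t * v) / (N : ℤ) : ℤ) : ℝ) := by
    rw [eq_sub_iff_add_eq, ← hdivR]
    field_simp
  rw [h2, hNR2, hvR]
  push_cast
  have h3 : (b : ℝ) * c * (t * (D * w)) / (D * n0) - t * (c / n0) = - t * a * c := by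
    have h4 : (b : ℝ) * c * (t * (D * w)) / (D * n0) = t * c * (w * b) / n0 := by
      field_simp
    rw [h4, show (w : ℝ) * b = 1 - n0 * a by linarith]
    field_simp
    ring
  linarith

end Pool.H84.CP
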