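import Pool.Agent.H84.CP.Core3

set_option autoImplicit false

/-!
The core theorem, in coordinates: `core` (for `k ≤ q`) and `core_all` (all `q`).
-/

namespace Pool.H84.CP

theorem core {N : ℕ} [NeZero N] (k : ℕ) (hk : 1 ≤ k)
    (M : AddSubgroup (EuclideanSpace ℝ (Fin k))) (Φ : M →+ ZMod N)
    (hfin : ∀ R : ℝ, {x : EuclideanSpace ℝ (Fin k) | x ∈ M ∧ ‖x‖ ≤ R}.Finite)
    (hZ : ∀ i, EuclideanSpace.single i (1 : ℝ) ∈ M)
    (A : Finset (ZMod N)) (hA : A.Nonempty)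
    (hAM : ∀ a ∈ A, ∃ m : M, Φ m = a ∧ ∀ i, |(m : EuclideanSpace ℝ (Fin k)) i| ≤ 1)
    (q : ℕ) (hq : 2 ≤ q) (hkq : k ≤ q) :
    ∃ Γ : Finset (ZMod N),
      (Γ.card : ℝ) ≤ 19 * k + 2 + 2 * (Real.log ((N : ℝ) / (A.card : ℝ)) / Real.log q) ∧
      ∀ x : ZMod N, (∀ γ ∈ Γ, bn (γ * x) ≤ 1 / (2 * (q : ℝ))) →
        ∃ m : M, Φ m = x ∧ ‖(m : EuclideanSpace ℝ (Fin k))‖ ≤ 1 / (k : ℝ) := by
  have hk1 : (1 : ℝ) ≤ k := by exact_mod_cast hk
  have hkq' : (k : ℝ) ≤ q := by exact_mod_cast hkq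
  have hq2 : (2 : ℝ) ≤ q := by exact_mod_cast hq
  have hlq : 0 < Real.log q := Real.log_pos (by linarith)
  obtain ⟨Γ, h1, h2⟩ := core_gen k hk M Φ hfin hZ A hA hAM q hq ((k : ℝ) ^ 2)
    (one_le_pow₀ hk1) (by
      have : (0 : ℝ) ≤ (k : ℝ) ^ 2 := by positivity
      calc (k : ℝ) ^ 3 = (k : ℝ) ^ 2 * k := by ring
        _ ≤ (k : ℝ) ^ 2 * q := mul_le_mul_of_nonneg_left hkq' this)
  refine ⟨Γ, h1.trans ?_, h2⟩
  have e1 : Real.log (k : ℝ) ≤ Real.log q := Real.log_le_log (by linarith) hkq'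
  have e2 : Real.log (196 : ℝ) ≤ 8 * Real.log q := by
    have h3 : Real.log (196 : ℝ) ≤ Real.log ((2 : ℝ) ^ 8) :=
      Real.log_le_log (by norm_num) (by norm_num)
    have h4 : Real.log (2 : ℝ) ≤ Real.log q := Real.log_le_log (by norm_num) hq2
    rw [Real.log_pow] at h3
    push_cast at h3
    linarith
  have e3 : Real.log ((k : ℝ) ^ 2) = 2 * Real.log k := by
    rw [Real.log_pow]; norm_num
  have e4 : (2 * Real.log ((N : ℝ) / (A.card : ℝ)) + k * Real.log ((k : ℝ) ^ 2)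
      + 7 * (k * Real.log k) + k * Real.log 196) / Real.log q
      ≤ (2 * Real.log ((N : ℝ) / (A.card : ℝ)) + 17 * k * Real.log q) / Real.log q := by
    refine div_le_div_of_nonneg_right ?_ hlq.le
    rw [e3]
    have e5 : (k : ℝ) * Real.log k ≤ k * Real.log q := mul_le_mul_of_nonneg_left e1 (by linarith)
    have e6 : (k : ℝ) * Real.log 196 ≤ k * (8 * Real.log q) :=
      mul_le_mul_of_nonneg_left e2 (by linarith)
    nlinarith
  have e7 : (2 * Real.log ((N : ℝ) / (A.card : ℝ)) + 17 * k * Real.log q) / Real.log q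
      = 2 * (Real.log ((N : ℝ) / (A.card : ℝ)) / Real.log q) + 17 * k := by
    field_simp
  linarith

theorem core_all {N : ℕ} [NeZero N] (k : ℕ) (hk : 1 ≤ k)
    (M : AddSubgroup (EuclideanSpace ℝ (Fin k))) (Φ : M →+ ZMod N)
    (hfin : ∀ R : ℝ, {x : EuclideanSpace ℝ (Fin k) | x ∈ M ∧ ‖x‖ ≤ R}.Finite)
    (hZ : ∀ i, EuclideanSpace.single i (1 : ℝ) ∈ M)
    (A : Finset (ZMod N)) (hA : A.Nonempty)
    (hAM : ∀ a ∈ A, ∃ m : M, Φ m = a ∧ ∀ i, |(m : EuclideanSpace ℝ (Fin k)) i| ≤ 1)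
    (q : ℕ) (hq : 2 ≤ q) :
    ∃ Γ : Finset (ZMod N),
      (Γ.card : ℝ) ≤ 2 * k + 2 + (2 * Real.log ((N : ℝ) / (A.card : ℝ))
        + 10 * (k * Real.log k) + 6 * k) / Real.log q ∧
      ∀ x : ZMod N, (∀ γ ∈ Γ, bn (γ * x) ≤ 1 / (2 * (q : ℝ))) →
        ∃ m : M, Φ m = x ∧ ‖(m : EuclideanSpace ℝ (Fin k))‖ ≤ 1 / (k : ℝ) := by
  have hk1 : (1 : ℝ) ≤ k := by exact_mod_cast hk
  have hq2 : (2 : ℝ) ≤ q := by exact_mod_cast hq
  have hlq : 0 < Real.log q := Real.log_pos (by linarith)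
  obtain ⟨Γ, h1, h2⟩ := core_gen k hk M Φ hfin hZ A hA hAM q hq ((k : ℝ) ^ 3)
    (one_le_pow₀ hk1) (by
      have : (0 : ℝ) ≤ (k : ℝ) ^ 3 := by positivity
      nlinarith)
  refine ⟨Γ, h1.trans ?_, h2⟩
  have e2 : Real.log (196 : ℝ) ≤ 6 := by
    have h3 : Real.log (196 : ℝ) ≤ Real.log ((2 : ℝ) ^ 8) :=
      Real.log_le_log (by norm_num) (by norm_num)
    have h4 := Real.log_two_lt_d9
    rw [Real.log_pow] at h3
    push_cast at h3
    linarith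
  have e3 : Real.log ((k : ℝ) ^ 3) = 3 * Real.log k := by
    rw [Real.log_pow]; norm_num
  have e4 : (2 * Real.log ((N : ℝ) / (A.card : ℝ)) + k * Real.log ((k : ℝ) ^ 3)
      + 7 * (k * Real.log k) + k * Real.log 196) / Real.log q
      ≤ (2 * Real.log ((N : ℝ) / (A.card : ℝ)) + 10 * (k * Real.log k) + 6 * k) / Real.log q := by
    refine div_le_div_of_nonneg_right ?_ hlq.le
    rw [e3]
    have e6 : (k : ℝ) * Real.log 196 ≤ k * 6 := mul_le_mul_of_nonneg_left e2 (by linarith)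
    nlinarith
  linarith

end Pool.H84.CP
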