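import Pool.Agent.H84.CP.Defs

set_option autoImplicit false

/-!
Row CP_PackC. Counting short vectors.

The vectors `⌊k^3 * T μ i⌋` (`i : Fin n`) determine `μ ∈ S` (equal floors: `μ - μ'` has all
coordinates `< 1 / k^3` in absolute value, norm `≤ √n / k^3 ≤ 1 / k^2`, so it is `0` by `h2`), and
each lies in `Finset.Icc (-(6 k^5)) (6 k^5)`, with `12 k^5 + 1 ≤ 14 k^5` elements
(`|T μ i| ≤ ‖μ‖ ≤ 6 k^2`). Injection into `Fintype.piFinset`.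
-/

namespace Pool.H84.CP

theorem PackC_coord {E : Type*} [NormedAddCommGroup E] [NormedSpace ℝ E] (n : ℕ)
    (T : E →ₗ[ℝ] (Fin n → ℝ)) (hT : ∀ x, ‖x‖ ^ 2 = ∑ i, T x i ^ 2) (x : E) (i : Fin n) :
    |T x i| ≤ ‖x‖ := by
  refine abs_le_of_sq_le_sq ?_ (norm_nonneg x)
  rw [hT x]
  exact Finset.single_le_sum (f := fun j => T x j ^ 2) (fun j _ => sq_nonneg _) (Finset.mem_univ i)

theorem pack_count {E : Type*} [NormedAddCommGroup E] [NormedSpace ℝ E] (k n : ℕ) (hk : 1 ≤ k)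
    (hn : n ≤ k) (T : E →ₗ[ℝ] (Fin n → ℝ)) (hT : ∀ x, ‖x‖ ^ 2 = ∑ i, T x i ^ 2)
    (S : Set E) (hS : ∀ μ ∈ S, ‖μ‖ ≤ 6 * (k : ℝ) ^ 2)
    (h2 : ∀ μ ∈ S, ∀ μ' ∈ S, μ ≠ μ' → 1 / (k : ℝ) ^ 2 < ‖μ - μ'‖) :
    S.Finite ∧ S.ncard ≤ (14 * k ^ 5) ^ n := by
  classical
  have hk0 : (0 : ℝ) < k := by exact_mod_cast hk
  have hk1 : (1 : ℝ) ≤ k := by exact_mod_cast hk
  have hk3 : (0 : ℝ) < (k : ℝ) ^ 3 := by positivity
  have hmaps : ∀ μ ∈ S, (fun i => ⌊(k : ℝ) ^ 3 * T μ i⌋ : Fin n → ℤ) ∈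
      ((Fintype.piFinset fun _ : Fin n => Finset.Icc (-(6 * (k : ℤ) ^ 5)) (6 * (k : ℤ) ^ 5) :
        Finset (Fin n → ℤ)) : Set (Fin n → ℤ)) := by
    intro μ hμ
    rw [Finset.mem_coe, Fintype.mem_piFinset]
    intro i
    have h1 := PackC_coord n T hT μ i
    have h3 : |(k : ℝ) ^ 3 * T μ i| ≤ 6 * (k : ℝ) ^ 5 := by
      rw [abs_mul, abs_of_pos hk3]
      calc (k : ℝ) ^ 3 * |T μ i| ≤ (k : ℝ) ^ 3 * (6 * (k : ℝ) ^ 2) :=
            mul_le_mul_of_nonneg_left (h1.trans (hS μ hμ)) hk3.le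
        _ = 6 * (k : ℝ) ^ 5 := by ring
    obtain ⟨h4, h5⟩ := abs_le.1 h3
    rw [Finset.mem_Icc]
    constructor
    · rw [Int.le_floor]
      push_cast
      exact h4
    · have h6 : ((⌊(k : ℝ) ^ 3 * T μ i⌋ : ℤ) : ℝ) ≤ ((6 * (k : ℤ) ^ 5 : ℤ) : ℝ) := by
        push_cast
        exact (Int.floor_le _).trans h5
      exact_mod_cast h6
  have hinj : Set.InjOn (fun μ => (fun i => ⌊(k : ℝ) ^ 3 * T μ i⌋ : Fin n → ℤ)) S := by
    intro μ hμ μ' hμ' heq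
    by_contra hne
    have h3 := h2 μ hμ μ' hμ' hne
    have h4 : ∀ i, (T (μ - μ') i) ^ 2 ≤ (1 / (k : ℝ) ^ 3) ^ 2 := by
      intro i
      have h5 : ⌊(k : ℝ) ^ 3 * T μ i⌋ = ⌊(k : ℝ) ^ 3 * T μ' i⌋ := congrFun heq i
      have h6 := Int.abs_sub_lt_one_of_floor_eq_floor h5
      rw [← mul_sub, abs_mul, abs_of_pos hk3] at h6
      have h7 : |T (μ - μ') i| ≤ 1 / (k : ℝ) ^ 3 := by
        rw [map_sub, Pi.sub_apply, le_div_iff₀ hk3, mul_comm]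
        exact h6.le
      rw [← sq_abs]
      exact pow_le_pow_left₀ (abs_nonneg _) h7 2
    have h8 : ‖μ - μ'‖ ^ 2 ≤ (1 / (k : ℝ) ^ 2) ^ 2 := by
      calc ‖μ - μ'‖ ^ 2 = ∑ i, T (μ - μ') i ^ 2 := hT _
        _ ≤ ∑ _i : Fin n, (1 / (k : ℝ) ^ 3) ^ 2 := Finset.sum_le_sum fun i _ => h4 i
        _ = n * (1 / (k : ℝ) ^ 3) ^ 2 := by
            rw [Finset.sum_const, Finset.card_univ, Fintype.card_fin, nsmul_eq_mul]
        _ ≤ (k : ℝ) ^ 2 * (1 / (k : ℝ) ^ 3) ^ 2 := by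
            refine mul_le_mul_of_nonneg_right ?_ (by positivity)
            have h9 : (n : ℝ) ≤ k := by exact_mod_cast hn
            nlinarith
        _ = (1 / (k : ℝ) ^ 2) ^ 2 := by
            field_simp
    have h10 : ‖μ - μ'‖ ≤ 1 / (k : ℝ) ^ 2 :=
      le_of_sq_le_sq h8 (by positivity)
    linarith
  have hfin := Finset.finite_toSet
    (Fintype.piFinset fun _ : Fin n => Finset.Icc (-(6 * (k : ℤ) ^ 5)) (6 * (k : ℤ) ^ 5) :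
        Finset (Fin n → ℤ))
  refine ⟨Set.Finite.of_injOn (fun μ hμ => hmaps μ hμ) hinj hfin, ?_⟩
  refine (Set.ncard_le_ncard_of_injOn _ hmaps hinj hfin).trans ?_
  rw [Set.ncard_coe_finset, Fintype.card_piFinset_const, Int.card_Icc]
  refine Nat.pow_le_pow_left ?_ _
  have h11 : 1 ≤ k ^ 5 := Nat.one_le_pow _ _ hk
  have h12 : (6 * (k : ℤ) ^ 5 + 1 - -(6 * (k : ℤ) ^ 5)) = ((12 * k ^ 5 + 1 : ℕ) : ℤ) := by
    push_cast
    ring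
  rw [h12, Int.toNat_natCast]
  omega

end Pool.H84.CP
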