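import Pool.Agent.H84.CP.PackN
import Pool.Agent.H84.CP.PackC

set_option autoImplicit false

/-!
Row CP_Pack. The packing inequality (Minkowski's second theorem in discrete form).

Grid: `ν : Fin n → ℕ` with `ν i ≤ ⌊lam i / (14 k^2)⌋₊`, `p ν` with `T (p ν) i = 7 k ν i`, `g ν` with
`‖π (g ν) - p ν‖ ≤ k / 2`. Consider the translates `Φ (g ν) + A` in `ZMod N`. Claim: every point is
in at most `(14 k^5)^n` of them. Then (number of `ν`) * |A| ≤ (14 k^5)^n * N, and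
`max 1 (lam i) ≤ 14 k^2 * (1 + ⌊lam i/(14 k^2)⌋₊)`, which gives the result.
Proof of the claim: fix `ν` with `z ∈ Φ (g ν) + A`. For each `ν'` with `z ∈ Φ (g ν') + A` there is
`g0 = g ν - g ν' + m_a - m_a'` in the kernel of `Φ`, `μ = π g0`, and
`‖μ - (p ν - p ν')‖ ≤ 2 * (k/2) + 2 k = 3 k`, so `|T μ i - 7 k (ν i - ν' i)| ≤ 3 k` for all `i`
(coordinates are at most the norm by `hT`): `μ` determines `ν'` (`7 k > 6 k`).
`‖μ‖ ≤ 6 k^2` is `pack_norm`, and the number of such `μ` (all `π g0`, `g0 ∈ ker Φ`) is at most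
`(14 k^5)^n` by `pack_count`. For the final count: double counting of the pairs (ν, z),
`z ∈ Φ (g ν) + A` (`Finset.sum_card_bipartiteAbove_eq_sum_card_bipartiteBelow` or
`Finset.card_nsmul_le_card_nsmul`).
-/

namespace Pool.H84.CP

/-- A coordinate is at most the norm. -/
theorem Pack_coord {E : Type*} [NormedAddCommGroup E] [NormedSpace ℝ E] (n : ℕ)
    (T : E →ₗ[ℝ] (Fin n → ℝ)) (hT : ∀ x, ‖x‖ ^ 2 = ∑ i, T x i ^ 2) (x : E) (i : Fin n) :
    |T x i| ≤ ‖x‖ := by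
  have h : T x i ^ 2 ≤ ‖x‖ ^ 2 := by
    rw [hT x]
    exact Finset.single_le_sum (f := fun j => T x j ^ 2) (fun j _ => sq_nonneg _)
      (Finset.mem_univ i)
  exact abs_le_of_sq_le_sq h (norm_nonneg x)

/-- The counting step: the number of grid points whose translate contains `z`. -/
theorem Pack_fibre {N : ℕ} [NeZero N] {G E : Type*} [AddCommGroup G] [NormedAddCommGroup E]
    [NormedSpace ℝ E] (π : G →+ E) (Φ : G →+ ZMod N) (k n : ℕ) (hk : 1 ≤ k) (hn : n ≤ k)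
    (T : E →ₗ[ℝ] (Fin n → ℝ)) (hT : ∀ x, ‖x‖ ^ 2 = ∑ i, T x i ^ 2)
    (lam : Fin n → ℝ) (hmono : Monotone lam) (hpos : ∀ i, 0 < lam i)
    (h1 : ∀ g, Φ g = 0 → ∀ i, T (π g) i ≠ 0 → lam i ≤ ‖π g‖)
    (h2 : ∀ g, Φ g = 0 → π g ≠ 0 → 1 / (k : ℝ) ^ 2 < ‖π g‖)
    (A : Finset (ZMod N)) (hA : ∀ a ∈ A, ∃ g, Φ g = a ∧ ‖π g‖ ≤ k)
    (p : (Fin n → ℕ) → E) (hp : ∀ ν i, T (p ν) i = 7 * (k : ℝ) * (ν i : ℝ))
    (g : (Fin n → ℕ) → G) (hg : ∀ ν, ‖π (g ν) - p ν‖ ≤ (k : ℝ) / 2) (z : ZMod N)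
    (F : Finset (Fin n → ℕ)) (hF : ∀ ν ∈ F, z - Φ (g ν) ∈ A)
    (hFl : ∀ ν ∈ F, ∀ i, (ν i : ℝ) ≤ lam i / (14 * (k : ℝ) ^ 2)) :
    F.card ≤ (14 * k ^ 5) ^ n := by
  classical
  rcases F.eq_empty_or_nonempty with h0 | ⟨ν0, hν0⟩
  · rw [h0]
    simp
  · have hkr : (1 : ℝ) ≤ (k : ℝ) := by exact_mod_cast hk
    let S : Set E := {μ | ∃ g0 : G, Φ g0 = 0 ∧ π g0 = μ ∧ ‖μ‖ ≤ 6 * (k : ℝ) ^ 2}
    have hS : S.Finite ∧ S.ncard ≤ (14 * k ^ 5) ^ n := by
      apply pack_count k n hk hn T hT S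
      · rintro μ ⟨g0, -, -, h⟩
        exact h
      · rintro μ ⟨g0, hg0, hμ, -⟩ μ' ⟨g1, hg1, hμ', -⟩ hne
        have hz : Φ (g0 - g1) = 0 := by rw [map_sub, hg0, hg1, sub_zero]
        have hπ : π (g0 - g1) = μ - μ' := by rw [map_sub, hμ, hμ']
        have hne' : π (g0 - g1) ≠ 0 := by
          rw [hπ]
          exact sub_ne_zero.mpr hne
        have := h2 _ hz hne'
        rwa [hπ] at this
    choose! m hm using hA
    let μ : (Fin n → ℕ) → E := fun ν =>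
      π (g ν0 - g ν + m (z - Φ (g ν0)) - m (z - Φ (g ν)))
    have hΦ : ∀ ν ∈ F, Φ (g ν0 - g ν + m (z - Φ (g ν0)) - m (z - Φ (g ν))) = 0 := by
      intro ν hν
      rw [map_sub, map_add, map_sub, (hm _ (hF ν0 hν0)).1, (hm _ (hF ν hν)).1]
      abel
    have hclose : ∀ ν ∈ F, ‖μ ν - (p ν0 - p ν)‖ ≤ 3 * (k : ℝ) := by
      intro ν hν
      have e : μ ν - (p ν0 - p ν) = (π (g ν0) - p ν0) - (π (g ν) - p ν)
          + (π (m (z - Φ (g ν0))) - π (m (z - Φ (g ν)))) := by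
        simp only [μ, map_sub, map_add]
        abel
      rw [e]
      have a1 := hg ν0
      have a2 := hg ν
      have a3 := (hm _ (hF ν0 hν0)).2
      have a4 := (hm _ (hF ν hν)).2
      have b1 := norm_add_le ((π (g ν0) - p ν0) - (π (g ν) - p ν))
        (π (m (z - Φ (g ν0))) - π (m (z - Φ (g ν))))
      have b2 := norm_sub_le (π (g ν0) - p ν0) (π (g ν) - p ν)
      have b3 := norm_sub_le (π (m (z - Φ (g ν0)))) (π (m (z - Φ (g ν))))
      linarith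
    have hcoord : ∀ ν ∈ F, ∀ i,
        |T (μ ν) i - 7 * (k : ℝ) * ((ν0 i : ℝ) - (ν i : ℝ))| ≤ 3 * (k : ℝ) := by
      intro ν hν i
      have c := Pack_coord n T hT (μ ν - (p ν0 - p ν)) i
      have e : T (μ ν - (p ν0 - p ν)) i
          = T (μ ν) i - 7 * (k : ℝ) * ((ν0 i : ℝ) - (ν i : ℝ)) := by
        rw [map_sub, map_sub]
        simp only [Pi.sub_apply]
        rw [hp, hp]
        ring
      rw [e] at c
      exact c.trans (hclose ν hν)
    have hmem : ∀ ν ∈ F, μ ν ∈ S := by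
      intro ν hν
      refine ⟨_, hΦ ν hν, rfl, ?_⟩
      apply pack_norm k n hk hn T hT lam hmono hpos (μ ν)
        (fun i hi => h1 _ (hΦ ν hν) i hi) (fun i => (ν0 i : ℝ) - (ν i : ℝ))
      · intro i
        have l0 := hFl ν0 hν0 i
        have l1 := hFl ν hν i
        have n0 : (0 : ℝ) ≤ (ν0 i : ℝ) := Nat.cast_nonneg _
        have n1 : (0 : ℝ) ≤ (ν i : ℝ) := Nat.cast_nonneg _
        rw [abs_le]
        constructor <;> linarith
      · intro i
        exact hcoord ν hν i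
    have hinj : Set.InjOn μ (F : Set (Fin n → ℕ)) := by
      intro ν hν ν' hν' he
      funext i
      have c1 := hcoord ν hν i
      have c2 := hcoord ν' hν' i
      rw [he] at c1
      rw [abs_le] at c1 c2
      by_contra hne
      rcases Nat.lt_or_gt_of_ne hne with h | h
      · have h' : (ν i : ℝ) + 1 ≤ (ν' i : ℝ) := by exact_mod_cast h
        nlinarith
      · have h' : (ν' i : ℝ) + 1 ≤ (ν i : ℝ) := by exact_mod_cast h
        nlinarith
    calc F.card ≤ hS.1.toFinset.card := by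
          apply Finset.card_le_card_of_injOn μ
          · intro ν hν
            rw [Finset.mem_coe, Set.Finite.mem_toFinset]
            exact hmem ν hν
          · exact hinj
      _ = S.ncard := (Set.ncard_eq_toFinset_card S hS.1).symm
      _ ≤ _ := hS.2


theorem packing {N : ℕ} [NeZero N] {G E : Type*} [AddCommGroup G] [NormedAddCommGroup E]
    [NormedSpace ℝ E] (π : G →+ E) (Φ : G →+ ZMod N) (k n : ℕ) (hk : 1 ≤ k) (hn : n ≤ k)
    (T : E →ₗ[ℝ] (Fin n → ℝ)) (hT : ∀ x, ‖x‖ ^ 2 = ∑ i, T x i ^ 2) (hTs : Function.Surjective T)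
    (lam : Fin n → ℝ) (hmono : Monotone lam) (hpos : ∀ i, 0 < lam i)
    (h1 : ∀ g, Φ g = 0 → ∀ i, T (π g) i ≠ 0 → lam i ≤ ‖π g‖)
    (h2 : ∀ g, Φ g = 0 → π g ≠ 0 → 1 / (k : ℝ) ^ 2 < ‖π g‖)
    (hcov : ∀ p : E, ∃ g, ‖π g - p‖ ≤ (k : ℝ) / 2)
    (A : Finset (ZMod N)) (hA : ∀ a ∈ A, ∃ g, Φ g = a ∧ ‖π g‖ ≤ k) :
    (∏ i, max 1 (lam i)) * (A.card : ℝ) ≤ (196 * (k : ℝ) ^ 7) ^ n * (N : ℝ) := by
  classical
  have hkr : (1 : ℝ) ≤ (k : ℝ) := by exact_mod_cast hk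
  have hk2 : (0 : ℝ) < 14 * (k : ℝ) ^ 2 := by positivity
  have hk2' : (1 : ℝ) ≤ 14 * (k : ℝ) ^ 2 := by nlinarith
  have hex : ∀ ν : Fin n → ℕ, ∃ x : E, T x = fun i => 7 * (k : ℝ) * (ν i : ℝ) := fun ν => hTs _
  choose p hp using hex
  choose g hg using fun ν : Fin n → ℕ => hcov (p ν)
  let Q : Finset (Fin n → ℕ) :=
    Fintype.piFinset (fun i => Finset.range (⌊lam i / (14 * (k : ℝ) ^ 2)⌋₊ + 1))
  have hQ : ∀ ν ∈ Q, ∀ i, (ν i : ℝ) ≤ lam i / (14 * (k : ℝ) ^ 2) := by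
    intro ν hν i
    have h := (Fintype.mem_piFinset.mp hν) i
    rw [Finset.mem_range, Nat.lt_succ_iff] at h
    have h0 : (0 : ℝ) ≤ lam i / (14 * (k : ℝ) ^ 2) := (div_pos (hpos i) hk2).le
    exact (Nat.le_floor_iff h0).mp h
  have hcount : Q.card * A.card ≤ N * (14 * k ^ 5) ^ n := by
    have hd := Finset.sum_card_bipartiteAbove_eq_sum_card_bipartiteBelow
      (s := Q) (t := (Finset.univ : Finset (ZMod N))) (fun ν z => z - Φ (g ν) ∈ A)
    have hl : ∀ ν ∈ Q, (Finset.bipartiteAbove (fun ν z => z - Φ (g ν) ∈ A)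
        (Finset.univ : Finset (ZMod N)) ν).card = A.card := by
      intro ν hν
      have e : Finset.bipartiteAbove (fun ν z => z - Φ (g ν) ∈ A)
          (Finset.univ : Finset (ZMod N)) ν = A.image (fun a => a + Φ (g ν)) := by
        ext z
        simp only [Finset.mem_bipartiteAbove, Finset.mem_univ, true_and, Finset.mem_image]
        constructor
        · intro h
          exact ⟨_, h, sub_add_cancel _ _⟩
        · rintro ⟨a, ha, rfl⟩
          rwa [add_sub_cancel_right]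
      rw [e]
      exact Finset.card_image_of_injective _ (add_left_injective _)
    rw [Finset.sum_congr rfl hl, Finset.sum_const, smul_eq_mul] at hd
    rw [hd]
    calc ∑ z : ZMod N, (Finset.bipartiteBelow (fun ν z => z - Φ (g ν) ∈ A) Q z).card
        ≤ ∑ _z : ZMod N, (14 * k ^ 5) ^ n := by
          apply Finset.sum_le_sum
          intro z _
          apply Pack_fibre π Φ k n hk hn T hT lam hmono hpos h1 h2 A hA p
            (fun ν i => by rw [hp ν]) g hg z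
          · intro ν hν
            exact (Finset.mem_filter.mp hν).2
          · intro ν hν
            exact hQ ν (Finset.mem_filter.mp hν).1
      _ = N * (14 * k ^ 5) ^ n := by
          rw [Finset.sum_const, Finset.card_univ, ZMod.card, smul_eq_mul]
  have hQc : Q.card = ∏ i, (⌊lam i / (14 * (k : ℝ) ^ 2)⌋₊ + 1) := by
    simp only [Q, Fintype.card_piFinset, Finset.card_range]
  have hprod : (∏ i, max 1 (lam i)) ≤ (14 * (k : ℝ) ^ 2) ^ n * (Q.card : ℝ) := by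
    rw [hQc]
    push_cast
    have e : (14 * (k : ℝ) ^ 2) ^ n = ∏ _i : Fin n, (14 * (k : ℝ) ^ 2) := by
      rw [Finset.prod_const, Finset.card_univ, Fintype.card_fin]
    rw [e, ← Finset.prod_mul_distrib]
    apply Finset.prod_le_prod
    · intro i _
      exact le_trans zero_le_one (le_max_left _ _)
    · intro i _
      have hf : (0 : ℝ) ≤ (⌊lam i / (14 * (k : ℝ) ^ 2)⌋₊ : ℝ) := Nat.cast_nonneg _
      apply max_le
      · nlinarith
      · have hlt := Nat.lt_floor_add_one (lam i / (14 * (k : ℝ) ^ 2))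
        rw [div_lt_iff₀ hk2] at hlt
        linarith
  have hA0 : (0 : ℝ) ≤ (A.card : ℝ) := Nat.cast_nonneg _
  have hcr : (Q.card : ℝ) * (A.card : ℝ) ≤ (N : ℝ) * (14 * (k : ℝ) ^ 5) ^ n := by
    exact_mod_cast hcount
  calc (∏ i, max 1 (lam i)) * (A.card : ℝ)
      ≤ (14 * (k : ℝ) ^ 2) ^ n * (Q.card : ℝ) * (A.card : ℝ) :=
        mul_le_mul_of_nonneg_right hprod hA0
    _ = (14 * (k : ℝ) ^ 2) ^ n * ((Q.card : ℝ) * (A.card : ℝ)) := by ring
    _ ≤ (14 * (k : ℝ) ^ 2) ^ n * ((N : ℝ) * (14 * (k : ℝ) ^ 5) ^ n) :=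
        mul_le_mul_of_nonneg_left hcr (by positivity)
    _ = (196 * (k : ℝ) ^ 7) ^ n * (N : ℝ) := by
        have e : (196 * (k : ℝ) ^ 7) = (14 * (k : ℝ) ^ 2) * (14 * (k : ℝ) ^ 5) := by ring
        rw [e, mul_pow (14 * (k : ℝ) ^ 2) (14 * (k : ℝ) ^ 5) n, mul_assoc, mul_comm (N : ℝ)]

end Pool.H84.CP
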