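import Pool.Agent.H84.CP.Defs

set_option autoImplicit false

/-!
Row CP_Red. A reduced basis (Korkin-Zolotarev, with the lower bounds `lam` for the minima).

Induction on `n = finrank`. `n = 0`: everything empty. Step `n + 1`: let `v ≠ 0` be a shortest
nonzero vector of `Λ` (exists: `Λ ≠ 0` as it spans, and balls are finite). `E' = (ℝ ∙ v)ᗮ`, `π` the
orthogonal projection to `E'`, `Λ' = Λ.map π`. Balls of `Λ'` are finite: every element of `Λ'` of
norm `≤ R` is `π l` with `l ∈ Λ`, and after subtracting a multiple of `v` from `l`,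
`‖l‖ ≤ R + ‖v‖ / 2`. `Λ'` spans `E'`. Induction gives `b', γ', lam', T'`.
`b' i = π (β i)` with `β i ∈ Λ` and (subtract a multiple of `v`) `|⟪v, β i⟫| ≤ ‖v‖^2 / 2`.
`b = Fin.cons v β`, `lam = Fin.cons ‖v‖ (fun i => max ‖v‖ (lam' i))`,
`γ (i+1) = γ' i ∘ π`, `γ 0 x = ⟪v, x - ∑ γ' i (π x) • β i⟫ / ‖v‖^2`,
`T x = Fin.cons (⟪v, x⟫ / ‖v‖) (T' (π x))`.
Integrality of `γ 0` on `Λ`: `x - ∑ z_i β i = t • v ∈ Λ`; `(t - round t) • v ∈ Λ` has norm
`≤ ‖v‖ / 2 < ‖v‖`, so it is `0`. Norm: `‖β i‖ ≤ ‖b' i‖ + ‖v‖ / 2 ≤ (n+1) * max ..`.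
Last clause: `x ∈ Λ`, `T x i ≠ 0` gives `x ≠ 0`, so `‖v‖ ≤ ‖x‖`; and `lam' i ≤ ‖π x‖ ≤ ‖x‖`.
-/

namespace Pool.H84.CP

open scoped InnerProductSpace

/-- Data of the projection along a nonzero vector. -/
theorem Red_proj {E : Type} [NormedAddCommGroup E] [InnerProductSpace ℝ E] (v : E) (hv : v ≠ 0) :
    ∃ (c : E →ₗ[ℝ] ℝ) (p : E →ₗ[ℝ] ↥((ℝ ∙ v)ᗮ : Submodule ℝ E)),
      (∀ x, ((p x : ↥((ℝ ∙ v)ᗮ : Submodule ℝ E)) : E) = x - c x • v) ∧
      (∀ x, ‖x‖ ^ 2 = (c x * ‖v‖) ^ 2 + ‖p x‖ ^ 2) ∧ c v = 1 ∧ p v = 0 ∧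
      (∀ y : ↥((ℝ ∙ v)ᗮ : Submodule ℝ E), p (y : E) = y) := by
  have hv0 : ‖v‖ ^ 2 ≠ 0 := pow_ne_zero 2 (norm_ne_zero_iff.2 hv)
  obtain ⟨c, hc⟩ : ∃ c : E →ₗ[ℝ] ℝ, ∀ x, c x = ⟪v, x⟫_ℝ / ‖v‖ ^ 2 := by
    refine ⟨(‖v‖ ^ 2)⁻¹ • (innerₛₗ ℝ v), fun x => ?_⟩
    simp [div_eq_inv_mul]
  have hmem : ∀ x, (LinearMap.id - c.smulRight v : E →ₗ[ℝ] E) x ∈ ((ℝ ∙ v)ᗮ : Submodule ℝ E) := by
    intro x
    rw [Submodule.mem_orthogonal_singleton_iff_inner_right]
    simp only [LinearMap.sub_apply, LinearMap.id_apply, LinearMap.smulRight_apply]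
    rw [inner_sub_right, inner_smul_right, real_inner_self_eq_norm_sq, hc]
    field_simp
    ring
  refine ⟨c, LinearMap.codRestrict _ (LinearMap.id - c.smulRight v) hmem, ?_, ?_, ?_, ?_, ?_⟩
  · intro x
    simp
  · intro x
    have h1 := hmem x
    rw [Submodule.mem_orthogonal_singleton_iff_inner_right] at h1
    simp only [LinearMap.sub_apply, LinearMap.id_apply, LinearMap.smulRight_apply] at h1
    have h2 : x = (x - c x • v) + c x • v := by simp
    have h3 : ⟪x - c x • v, c x • v⟫_ℝ = 0 := by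
      rw [inner_smul_right, real_inner_comm, h1, mul_zero]
    have h4 := norm_add_sq_eq_norm_sq_add_norm_sq_real h3
    rw [← h2] at h4
    have h5 : ‖(LinearMap.codRestrict ((ℝ ∙ v)ᗮ : Submodule ℝ E) (LinearMap.id - c.smulRight v) hmem) x‖
        = ‖x - c x • v‖ := by
      rw [Submodule.coe_norm]
      simp
    rw [h5]
    have h6 : ‖c x • v‖ * ‖c x • v‖ = (c x * ‖v‖) ^ 2 := by
      rw [norm_smul, Real.norm_eq_abs, mul_pow, ← sq_abs (c x)]
      ring
    rw [h6] at h4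
    nlinarith [h4]
  · rw [hc, real_inner_self_eq_norm_sq]
    exact div_self hv0
  · apply Subtype.ext
    have hcv : c v = 1 := by
      rw [hc, real_inner_self_eq_norm_sq]
      exact div_self hv0
    simp [hcv]
  · intro y
    apply Subtype.ext
    have h1 := y.2
    rw [Submodule.mem_orthogonal_singleton_iff_inner_right] at h1
    have hcy : c (y : E) = 0 := by
      rw [hc, h1, zero_div]
    simp [hcy]

/-- A shortest nonzero vector. -/
theorem Red_short {E : Type} [NormedAddCommGroup E] [InnerProductSpace ℝ E]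
    (Λ : AddSubgroup E) (hfin : ∀ R : ℝ, {x : E | x ∈ Λ ∧ ‖x‖ ≤ R}.Finite)
    (hne : ∃ x ∈ Λ, x ≠ 0) : ∃ v ∈ Λ, v ≠ 0 ∧ ∀ x ∈ Λ, x ≠ 0 → ‖v‖ ≤ ‖x‖ := by
  classical
  obtain ⟨l, hl, hl0⟩ := hne
  have hF := hfin ‖l‖
  obtain ⟨v, hv, hmin⟩ := Finset.exists_min_image (hF.toFinset.filter (fun x => x ≠ 0)) (fun x => ‖x‖)
    ⟨l, by simp [hl, hl0]⟩
  simp only [Finset.mem_filter, Set.Finite.mem_toFinset, Set.mem_ofPred_eq] at hv hmin
  refine ⟨v, hv.1.1, hv.2, fun x hx hx0 => ?_⟩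
  by_cases h : ‖x‖ ≤ ‖l‖
  · exact hmin x ⟨⟨hx, h⟩, hx0⟩
  · exact hv.1.2.trans (not_le.1 h).le

theorem exists_red (n : ℕ) : ∀ (E : Type) [NormedAddCommGroup E] [InnerProductSpace ℝ E]
    [FiniteDimensional ℝ E], Module.finrank ℝ E = n → ∀ Λ : AddSubgroup E,
    (∀ R : ℝ, {x : E | x ∈ Λ ∧ ‖x‖ ≤ R}.Finite) → Submodule.span ℝ (Λ : Set E) = ⊤ →
    ∃ (b : Fin n → E) (γ : Fin n → (E →ₗ[ℝ] ℝ)) (lam : Fin n → ℝ) (T : E →ₗ[ℝ] (Fin n → ℝ)),
      (∀ i, b i ∈ Λ) ∧ (∀ x, x = ∑ i, γ i x • b i) ∧ (∀ x ∈ Λ, ∀ i, ∃ z : ℤ, γ i x = z) ∧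
      Monotone lam ∧ (∀ i, 0 < lam i) ∧ (∀ i, ‖b i‖ ≤ n * lam i) ∧
      (∀ x, ‖x‖ ^ 2 = ∑ i, T x i ^ 2) ∧ Function.Surjective T ∧
      ∀ x ∈ Λ, ∀ i, T x i ≠ 0 → lam i ≤ ‖x‖ := by
  induction n with
  | zero =>
    intro E _ _ _ hdim Λ _ _
    have hsub : Subsingleton E := Module.finrank_zero_iff.1 hdim
    refine ⟨fun i => i.elim0, fun i => i.elim0, fun i => i.elim0, 0, fun i => i.elim0, ?_, ?_, ?_,
      fun i => i.elim0, fun i => i.elim0, ?_, ?_, ?_⟩
    · intro x; exact Subsingleton.elim _ _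
    · intro x _ i; exact i.elim0
    · intro i; exact i.elim0
    · intro x
      have : x = 0 := Subsingleton.elim _ _
      simp [this]
    · intro y
      exact ⟨0, Subsingleton.elim _ _⟩
    · intro x _ i; exact i.elim0
  | succ n ih =>
    intro E _ _ _ hdim Λ hfin hspan
    have hne : ∃ x ∈ Λ, x ≠ 0 := by
      by_contra hcon
      push Not at hcon
      have h1 : Submodule.span ℝ (Λ : Set E) = ⊥ := by
        rw [Submodule.span_eq_bot]
        intro x hx
        exact hcon x hx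
      rw [h1] at hspan
      have h2 : Module.finrank ℝ E = 0 := by
        rw [← finrank_top ℝ E, ← hspan, finrank_bot]
      omega
    obtain ⟨v, hvΛ, hv0, hvmin⟩ := Red_short Λ hfin hne
    obtain ⟨c, p, hp, hnorm, hcv, hpv, hpy⟩ := Red_proj v hv0
    have hvpos : 0 < ‖v‖ := norm_pos_iff.2 hv0
    -- adjusting a lift
    have hadj : ∀ l ∈ Λ, ∃ l' ∈ Λ, p l' = p l ∧ ‖l'‖ ≤ ‖p l‖ + ‖v‖ / 2 := by
      intro l hl
      refine ⟨l - round (c l) • v, Λ.sub_mem hl (Λ.zsmul_mem hvΛ _), ?_, ?_⟩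
      · rw [map_sub, map_zsmul, hpv, smul_zero, sub_zero]
      · have h1 : l - round (c l) • v = (p l : E) + (c l - round (c l)) • v := by
          rw [hp, sub_smul, ← Int.cast_smul_eq_zsmul ℝ]
          abel
        rw [h1]
        refine (norm_add_le _ _).trans ?_
        have h2 : ‖(c l - round (c l)) • v‖ ≤ ‖v‖ / 2 := by
          rw [norm_smul, Real.norm_eq_abs]
          have := abs_sub_round (c l)
          nlinarith
        have h3 : ‖((p l : ↥((ℝ ∙ v)ᗮ : Submodule ℝ E)) : E)‖ = ‖p l‖ := rfl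
        linarith [h3.le]
    have hple : ∀ x, ‖p x‖ ≤ ‖x‖ := by
      intro x
      have h1 := hnorm x
      have h2 : ‖p x‖ ^ 2 ≤ ‖x‖ ^ 2 := by nlinarith [sq_nonneg (c x * ‖v‖)]
      exact (pow_le_pow_iff_left₀ (norm_nonneg _) (norm_nonneg _) two_ne_zero).1 h2
    obtain ⟨Λ', hΛ'⟩ : ∃ Λ' : AddSubgroup ↥((ℝ ∙ v)ᗮ : Submodule ℝ E),
        Λ' = Λ.map p.toAddMonoidHom := ⟨_, rfl⟩
    have hmem' : ∀ y, y ∈ Λ' ↔ ∃ l ∈ Λ, p l = y := by
      intro y
      rw [hΛ', AddSubgroup.mem_map]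
      rfl
    have hdim' : Module.finrank ℝ ↥((ℝ ∙ v)ᗮ : Submodule ℝ E) = n := by
      have : Fact (Module.finrank ℝ E = n + 1) := ⟨hdim⟩
      exact Submodule.finrank_orthogonal_span_singleton hv0
    have hfin' : ∀ R : ℝ, {y : ↥((ℝ ∙ v)ᗮ : Submodule ℝ E) | y ∈ Λ' ∧ ‖y‖ ≤ R}.Finite := by
      intro R
      refine ((hfin (R + ‖v‖ / 2)).image p).subset ?_
      rintro y ⟨hy, hyR⟩
      obtain ⟨l, hl, rfl⟩ := (hmem' y).1 hy
      obtain ⟨l', hl', h1, h2⟩ := hadj l hl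
      exact ⟨l', ⟨hl', by linarith⟩, h1⟩
    have hspan' : Submodule.span ℝ (Λ' : Set ↥((ℝ ∙ v)ᗮ : Submodule ℝ E)) = ⊤ := by
      have h1 : (Λ' : Set ↥((ℝ ∙ v)ᗮ : Submodule ℝ E)) = p '' (Λ : Set E) := by
        ext y
        exact hmem' y
      rw [h1, ← Submodule.map_span, hspan, Submodule.map_top, LinearMap.range_eq_top]
      intro y
      exact ⟨(y : E), hpy y⟩
    obtain ⟨b', γ', lam', T', hb', hx', hint', hmono', hpos', hnb', hT', hTs', hlam'⟩ :=
      ih _ hdim' Λ' hfin' hspan'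
    have hβ : ∀ i, ∃ β ∈ Λ, p β = b' i ∧ ‖β‖ ≤ ‖b' i‖ + ‖v‖ / 2 := by
      intro i
      obtain ⟨l, hl, h1⟩ := (hmem' _).1 (hb' i)
      obtain ⟨l', hl', h2, h3⟩ := hadj l hl
      exact ⟨l', hl', h2.trans h1, by rwa [h1] at h3⟩
    choose β hβΛ hpβ hβn using hβ
    obtain ⟨r, hr⟩ : ∃ r : E →ₗ[ℝ] E, ∀ x, r x = x - ∑ i, γ' i (p x) • β i := by
      refine ⟨LinearMap.id - ∑ i, ((γ' i).comp p).smulRight (β i), fun x => ?_⟩
      simp [LinearMap.sum_apply]
    have hrv : ∀ x, r x = c (r x) • v := by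
      intro x
      have h1 : p (r x) = 0 := by
        rw [hr, map_sub, map_sum]
        have h2 : ∑ i, p (γ' i (p x) • β i) = p x := by
          conv_rhs => rw [hx' (p x)]
          refine Finset.sum_congr rfl fun i _ => ?_
          rw [map_smul, hpβ]
        rw [h2, sub_self]
      have h2 := hp (r x)
      rw [h1] at h2
      have h3 : (0 : E) = r x - c (r x) • v := by simpa using h2
      exact (sub_eq_zero.1 h3.symm)
    have hTn : ∀ x, ‖x‖ ^ 2 = ∑ i, (Fin.cons (c x * ‖v‖) (T' (p x)) : Fin (n + 1) → ℝ) i ^ 2 := by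
      intro x
      rw [Fin.sum_univ_succ]
      simp only [Fin.cons_zero, Fin.cons_succ]
      rw [hnorm x, hT' (p x)]
    obtain ⟨T, hTdef⟩ : ∃ T : E →ₗ[ℝ] (Fin (n + 1) → ℝ),
        ∀ x, T x = (Fin.cons (c x * ‖v‖) (T' (p x)) : Fin (n + 1) → ℝ) := by
      refine ⟨{ toFun := fun x => (Fin.cons (c x * ‖v‖) (T' (p x)) : Fin (n + 1) → ℝ)
                map_add' := ?_
                map_smul' := ?_ }, fun x => rfl⟩
      · intro x y
        funext i
        refine Fin.cases ?_ (fun j => ?_) i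
        · simp only [Fin.cons_zero, Pi.add_apply, map_add]; ring
        · simp only [Fin.cons_succ, Pi.add_apply, map_add]
      · intro a x
        funext i
        refine Fin.cases ?_ (fun j => ?_) i
        · simp only [Fin.cons_zero, Pi.smul_apply, map_smul, smul_eq_mul, RingHom.id_apply]; ring
        · simp only [Fin.cons_succ, Pi.smul_apply, map_smul, RingHom.id_apply]
    refine ⟨Fin.cons v β, Fin.cons (c.comp r) (fun i => (γ' i).comp p),
      Fin.cons ‖v‖ (fun i => max ‖v‖ (lam' i)), T, ?_, ?_, ?_, ?_, ?_, ?_, ?_, ?_, ?_⟩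
    · intro i
      refine Fin.cases ?_ (fun j => ?_) i
      · simpa using hvΛ
      · simpa using hβΛ j
    · intro x
      rw [Fin.sum_univ_succ]
      simp only [Fin.cons_zero, Fin.cons_succ, LinearMap.comp_apply]
      rw [← hrv x, hr]
      abel
    · intro x hx i
      have hint : ∀ j, ∃ z : ℤ, γ' j (p x) = z := fun j => hint' (p x) ((hmem' _).2 ⟨x, hx, rfl⟩) j
      refine Fin.cases ?_ (fun j => ?_) i
      · simp only [Fin.cons_zero, LinearMap.comp_apply]
        choose z hz using hint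
        have h1 : r x ∈ Λ := by
          rw [hr]
          refine Λ.sub_mem hx (Λ.sum_mem fun j _ => ?_)
          rw [hz j, Int.cast_smul_eq_zsmul ℝ]
          exact Λ.zsmul_mem (hβΛ j) _
        refine ⟨round (c (r x)), ?_⟩
        by_contra hcon
        have h2 : (c (r x) - round (c (r x))) • v ∈ Λ := by
          rw [sub_smul, ← hrv x, Int.cast_smul_eq_zsmul ℝ]
          exact Λ.sub_mem h1 (Λ.zsmul_mem hvΛ _)
        have h3 : (c (r x) - round (c (r x))) • v ≠ 0 :=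
          smul_ne_zero (sub_ne_zero.2 hcon) hv0
        have h4 := hvmin _ h2 h3
        rw [norm_smul, Real.norm_eq_abs] at h4
        have h5 := abs_sub_round (c (r x))
        nlinarith
      · simpa only [Fin.cons_succ, LinearMap.comp_apply] using hint j
    · intro i j hij
      refine Fin.cases (fun _ => ?_) (fun i' hij' => ?_) i hij
      · refine Fin.cases ?_ (fun j' => ?_) j
        · exact le_rfl
        · simp
      · revert hij'
        refine Fin.cases (fun h => ?_) (fun j' h => ?_) j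
        · exact absurd h (by simp)
        · simp only [Fin.cons_succ]
          exact max_le_max le_rfl (hmono' (Fin.succ_le_succ_iff.1 h))
    · intro i
      refine Fin.cases ?_ (fun j => ?_) i
      · simpa using hv0
      · simp only [Fin.cons_succ]
        exact lt_of_lt_of_le hvpos (le_max_left _ _)
    · intro i
      refine Fin.cases ?_ (fun j => ?_) i
      · simp only [Fin.cons_zero]
        push_cast
        nlinarith [Nat.cast_nonneg (α := ℝ) n]
      · simp only [Fin.cons_succ]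
        have h1 := hβn j
        have h2 := hnb' j
        have h3 : ‖v‖ ≤ max ‖v‖ (lam' j) := le_max_left _ _
        have h4 : lam' j ≤ max ‖v‖ (lam' j) := le_max_right _ _
        have h5 : (n : ℝ) * lam' j ≤ n * max ‖v‖ (lam' j) :=
          mul_le_mul_of_nonneg_left h4 (Nat.cast_nonneg n)
        push_cast
        nlinarith
    · intro x
      rw [hTn x, hTdef]
    · have hinj : Function.Injective T := by
        rw [← LinearMap.ker_eq_bot, LinearMap.ker_eq_bot']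
        intro x hx
        have h1 := hTn x
        rw [← hTdef, hx] at h1
        simp at h1
        exact h1
      exact (LinearMap.injective_iff_surjective_of_finrank_eq_finrank (by simp [hdim])).1 hinj
    · intro x hx i hi
      have hx0 : x ≠ 0 := by
        rintro rfl
        simp at hi
      have h1 := hvmin x hx hx0
      rw [hTdef] at hi
      revert hi
      refine Fin.cases (fun _ => ?_) (fun j hj => ?_) i
      · simpa using h1
      · simp only [Fin.cons_succ] at hj ⊢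
        exact max_le h1 ((hlam' (p x) ((hmem' _).2 ⟨x, hx, rfl⟩) j hj).trans (hple x))

end Pool.H84.CP
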