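import Pool.Agent.H84.CP.Defs

set_option autoImplicit false

/-!
Row CP_Wsp. The greedy subspace.

Among the subspaces `W` with the property (P): for all `w ∈ W` there is `l ∈ Λ`, `l ∈ W`, with
`‖w - l‖ ≤ (finrank W) * s / 2`, take one of maximal dimension (`⊥` has (P)). If some `l0 ∈ Λ`,
`l0 ∉ W` had `‖π l0‖ ≤ s` (`π` the projection on `Wᗮ`), then `W' = W ⊔ span {l0}` has dimension one
more and (P): for `w' = w + c • l0` subtract `round c • l0`; the rest is `w + c' • l0` with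
`|c'| ≤ 1/2`, and `c' • l0 = c' • (l0 - π l0) + c' • π l0`, the first part in `W`, the second of
norm `≤ s / 2`; apply (P) for `W` to `w + c' • (l0 - π l0)`.
-/

namespace Pool.H84.CP

theorem Wsp_step {E : Type*} [NormedAddCommGroup E] [InnerProductSpace ℝ E]
    [FiniteDimensional ℝ E] (Λ : AddSubgroup E) (s : ℝ) (W : Submodule ℝ E) (l0 : E)
    (hl0 : l0 ∈ Λ) (hW0 : l0 ∉ W) (hn : ‖(Wᗮ).orthogonalProjectionOnto l0‖ ≤ s)
    (hP : ∀ w ∈ W, ∃ l ∈ Λ, l ∈ W ∧ ‖w - l‖ ≤ (Module.finrank ℝ W : ℝ) * s / 2) :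
    ∀ w ∈ W ⊔ Submodule.span ℝ {l0}, ∃ l ∈ Λ, l ∈ W ⊔ Submodule.span ℝ {l0} ∧
      ‖w - l‖ ≤ (Module.finrank ℝ (W ⊔ Submodule.span ℝ {l0} : Submodule ℝ E) : ℝ) * s / 2 := by
  intro w' hw'
  obtain ⟨w, hw, v, hv, rfl⟩ := Submodule.mem_sup.1 hw'
  obtain ⟨c, rfl⟩ := Submodule.mem_span_singleton.1 hv
  have hfr : Module.finrank ℝ (W ⊔ Submodule.span ℝ {l0} : Submodule ℝ E)
      = Module.finrank ℝ W + 1 := Submodule.finrank_sup_span_singleton hW0
  have hcoe : ((Wᗮ).orthogonalProjectionOnto l0 : E) = l0 - W.starProjection l0 := by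
    rw [Submodule.coe_orthogonalProjectionOnto_apply, Submodule.starProjection_orthogonal_val]
  have hnn : ‖l0 - W.starProjection l0‖ ≤ s := by
    rw [← hcoe]; exact hn
  obtain ⟨l, hl, hlW, hle⟩ := hP (w + (c - round c) • W.starProjection l0)
    (W.add_mem hw (W.smul_mem _ (Submodule.starProjection_apply_mem W l0)))
  refine ⟨l + round c • l0, Λ.add_mem hl (Λ.zsmul_mem hl0 _), ?_, ?_⟩
  · refine Submodule.add_mem _ (Submodule.mem_sup_left hlW) (Submodule.mem_sup_right ?_)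
    rw [← Int.cast_smul_eq_zsmul ℝ]
    exact Submodule.smul_mem _ _ (Submodule.mem_span_singleton_self l0)
  · have heq : w + c • l0 - (l + round c • l0)
        = (w + (c - round c) • W.starProjection l0 - l)
          + (c - round c) • (l0 - W.starProjection l0) := by
      rw [← Int.cast_smul_eq_zsmul ℝ (round c) l0, smul_sub, sub_smul (c : ℝ) _ l0]
      abel
    have h2 : ‖(c - round c) • (l0 - W.starProjection l0)‖ ≤ s / 2 := by
      rw [norm_smul, Real.norm_eq_abs]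
      have h3 := abs_sub_round c
      have h4 := norm_nonneg (l0 - W.starProjection l0)
      calc |c - round c| * ‖l0 - W.starProjection l0‖ ≤ (1 / 2) * s := by
            apply mul_le_mul h3 hnn h4 (by norm_num)
        _ = s / 2 := by ring
    rw [heq, hfr]
    push_cast
    calc _ ≤ ‖w + (c - round c) • W.starProjection l0 - l‖
          + ‖(c - round c) • (l0 - W.starProjection l0)‖ := norm_add_le _ _
      _ ≤ (Module.finrank ℝ W : ℝ) * s / 2 + s / 2 := add_le_add hle h2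
      _ = _ := by ring

theorem exists_W {E : Type*} [NormedAddCommGroup E] [InnerProductSpace ℝ E]
    [FiniteDimensional ℝ E] (Λ : AddSubgroup E) (s : ℝ) (hs : 0 ≤ s) :
    ∃ W : Submodule ℝ E,
      (∀ w ∈ W, ∃ l ∈ Λ, l ∈ W ∧ ‖w - l‖ ≤ (Module.finrank ℝ E : ℝ) * s / 2) ∧
      ∀ l ∈ Λ, l ∉ W → s < ‖(Wᗮ).orthogonalProjectionOnto l‖ := by
  classical
  let P : ℕ → Prop := fun k => ∃ W : Submodule ℝ E, Module.finrank ℝ W = k ∧
    ∀ w ∈ W, ∃ l ∈ Λ, l ∈ W ∧ ‖w - l‖ ≤ (Module.finrank ℝ W : ℝ) * s / 2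
  have h0 : P 0 := by
    refine ⟨⊥, finrank_bot ℝ E, fun w hw => ⟨0, Λ.zero_mem, Submodule.zero_mem _, ?_⟩⟩
    rw [(Submodule.mem_bot ℝ).1 hw]
    simp
  have hgood : P (Nat.findGreatest P (Module.finrank ℝ E)) :=
    Nat.findGreatest_spec (Nat.zero_le _) h0
  obtain ⟨W, hWk, hWP⟩ := hgood
  refine ⟨W, ?_, ?_⟩
  · intro w hw
    obtain ⟨l, hl, hlW, hle⟩ := hWP w hw
    refine ⟨l, hl, hlW, hle.trans ?_⟩
    have h1 : (Module.finrank ℝ W : ℝ) ≤ (Module.finrank ℝ E : ℝ) := by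
      exact_mod_cast Submodule.finrank_le W
    have := mul_le_mul_of_nonneg_right h1 hs
    linarith
  · intro l hl hlW
    by_contra hcon
    push Not at hcon
    have h1 : P (Module.finrank ℝ W + 1) :=
      ⟨W ⊔ Submodule.span ℝ {l}, Submodule.finrank_sup_span_singleton hlW,
        Wsp_step Λ s W l hl hlW hcon hWP⟩
    have h2 : Module.finrank ℝ W + 1 ≤ Module.finrank ℝ E := by
      rw [← Submodule.finrank_sup_span_singleton hlW]
      exact Submodule.finrank_le _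
    have h3 := Nat.le_findGreatest h2 h1
    omega

end Pool.H84.CP
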