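import Pool.Agent.H84.CP.Sub
import Pool.Agent.H84.CP.Chr
import Pool.Agent.H84.CP.Wsp
import Pool.Agent.H84.CP.Red
import Pool.Agent.H84.CP.Pack

set_option autoImplicit false

namespace Pool.H84.CP

open scoped BigOperators

section setup

variable {N k : ℕ} (M : AddSubgroup (EuclideanSpace ℝ (Fin k))) (Φ : M →+ ZMod N)

/-- The kernel as a subgroup of `ℝ^k`. -/
def kerL : AddSubgroup (EuclideanSpace ℝ (Fin k)) := Φ.ker.map M.subtype

theorem mem_kerL (x : EuclideanSpace ℝ (Fin k)) :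
    x ∈ kerL M Φ ↔ ∃ h : x ∈ M, Φ ⟨x, h⟩ = 0 := by
  rw [kerL, AddSubgroup.mem_map]
  constructor
  · rintro ⟨y, hy, rfl⟩
    exact ⟨y.2, hy⟩
  · rintro ⟨h, h0⟩
    exact ⟨⟨x, h⟩, h0, rfl⟩

theorem kerL_le {x : EuclideanSpace ℝ (Fin k)} (h : x ∈ kerL M Φ) : x ∈ M :=
  ((mem_kerL M Φ x).1 h).1

theorem kerL_span [NeZero N] (hZ : ∀ i, EuclideanSpace.single i (1 : ℝ) ∈ M) :
    Submodule.span ℝ (kerL M Φ : Set (EuclideanSpace ℝ (Fin k))) = ⊤ := by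
  rw [eq_top_iff, ← (EuclideanSpace.basisFun (Fin k) ℝ).toBasis.span_eq, Submodule.span_le]
  rintro _ ⟨i, rfl⟩
  have h1 : (N : ℝ) • EuclideanSpace.single i (1 : ℝ) ∈ kerL M Φ := by
    rw [mem_kerL]
    have h2 : (N : ℝ) • EuclideanSpace.single i (1 : ℝ) = N • EuclideanSpace.single i (1 : ℝ) := by
      rw [Nat.cast_smul_eq_nsmul]
    have h3 : N • EuclideanSpace.single i (1 : ℝ) ∈ M := M.nsmul_mem (hZ i) N
    refine ⟨h2 ▸ h3, ?_⟩
    have h4 : (⟨(N : ℝ) • EuclideanSpace.single i (1 : ℝ), h2 ▸ h3⟩ : M)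
        = N • (⟨EuclideanSpace.single i (1 : ℝ), hZ i⟩ : M) := by
      apply Subtype.ext
      simp [h2]
    rw [h4, map_nsmul, nsmul_eq_mul, ZMod.natCast_self, zero_mul]
  have h5 := Submodule.smul_mem (Submodule.span ℝ (kerL M Φ : Set (EuclideanSpace ℝ (Fin k))))
    ((N : ℝ)⁻¹) (Submodule.subset_span h1)
  have hN : (N : ℝ) ≠ 0 := by exact_mod_cast NeZero.ne N
  rw [smul_smul, inv_mul_cancel₀ hN, one_smul] at h5
  simpa using h5

end setup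

section proj

variable {k : ℕ} (W : Submodule ℝ (EuclideanSpace ℝ (Fin k)))

/-- The orthogonal projection to `Wᗮ`. -/
noncomputable def prj : EuclideanSpace ℝ (Fin k) →+ (Wᗮ : Submodule ℝ (EuclideanSpace ℝ (Fin k))) :=
  ((Wᗮ).orthogonalProjectionOnto : EuclideanSpace ℝ (Fin k) →ₗ[ℝ] _).toAddMonoidHom

theorem prj_apply (x : EuclideanSpace ℝ (Fin k)) : prj W x = (Wᗮ).orthogonalProjectionOnto x := rfl

theorem prj_norm_le (x : EuclideanSpace ℝ (Fin k)) : ‖prj W x‖ ≤ ‖x‖ := by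
  rw [prj_apply]
  exact Submodule.norm_orthogonalProjectionOnto_apply_le _ x

theorem prj_of_mem {x : EuclideanSpace ℝ (Fin k)} (h : x ∈ W) : prj W x = 0 := by
  rw [prj_apply, Submodule.orthogonalProjectionOnto_eq_zero_iff]
  exact (Submodule.le_orthogonal_orthogonal W) h

theorem sub_prj_mem (x : EuclideanSpace ℝ (Fin k)) :
    x - (prj W x : EuclideanSpace ℝ (Fin k)) ∈ W := by
  have h := Submodule.sub_starProjection_mem_orthogonal (K := Wᗮ) x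
  rw [Submodule.orthogonal_orthogonal] at h
  exact h

end proj


section work

variable {N k : ℕ} (M : AddSubgroup (EuclideanSpace ℝ (Fin k))) (Φ : M →+ ZMod N)
  (W : Submodule ℝ (EuclideanSpace ℝ (Fin k)))

/-- Reduce by an element of `Λ ∩ W`. -/
theorem reduce (s : ℝ)
    (hW : ∀ w ∈ W, ∃ l ∈ kerL M Φ, l ∈ W ∧ ‖w - l‖ ≤ s) (m : M) :
    ∃ m' : M, Φ m' = Φ m ∧ (m - m' : EuclideanSpace ℝ (Fin k)) ∈ kerL M Φ ∧
      prj W (m' : EuclideanSpace ℝ (Fin k)) = prj W (m : EuclideanSpace ℝ (Fin k)) ∧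
      ‖(m' : EuclideanSpace ℝ (Fin k))‖ ≤ ‖prj W (m : EuclideanSpace ℝ (Fin k))‖ + s := by
  obtain ⟨l, hl, hlW, hle⟩ := hW _ (sub_prj_mem W (m : EuclideanSpace ℝ (Fin k)))
  obtain ⟨hlM, hl0⟩ := (mem_kerL M Φ l).1 hl
  refine ⟨m - ⟨l, hlM⟩, ?_, ?_, ?_, ?_⟩
  · rw [map_sub, hl0, sub_zero]
  · simpa using hl
  · rw [AddSubgroup.coe_sub, map_sub, prj_of_mem W hlW, sub_zero]
  · rw [AddSubgroup.coe_sub]
    have h1 : (m : EuclideanSpace ℝ (Fin k)) - l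
        = (prj W (m : EuclideanSpace ℝ (Fin k)) : EuclideanSpace ℝ (Fin k))
          + ((m : EuclideanSpace ℝ (Fin k))
            - (prj W (m : EuclideanSpace ℝ (Fin k)) : EuclideanSpace ℝ (Fin k)) - l) := by
      abel
    show ‖(m : EuclideanSpace ℝ (Fin k)) - l‖ ≤ _
    rw [h1]
    refine (norm_add_le _ _).trans ?_
    rw [Submodule.coe_norm]
    exact add_le_add le_rfl hle

theorem fin_map (s : ℝ)
    (hfin : ∀ R : ℝ, {x : EuclideanSpace ℝ (Fin k) | x ∈ M ∧ ‖x‖ ≤ R}.Finite)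
    (hW : ∀ w ∈ W, ∃ l ∈ kerL M Φ, l ∈ W ∧ ‖w - l‖ ≤ s) (R : ℝ) :
    {x : (Wᗮ : Submodule ℝ (EuclideanSpace ℝ (Fin k))) |
      x ∈ (kerL M Φ).map (prj W) ∧ ‖x‖ ≤ R}.Finite := by
  refine ((hfin (R + s)).image (prj W)).subset ?_
  rintro y ⟨hy, hyR⟩
  rw [AddSubgroup.mem_map] at hy
  obtain ⟨l, hl, rfl⟩ := hy
  obtain ⟨m', -, -, h2, h3⟩ := reduce M Φ W s hW ⟨l, kerL_le M Φ hl⟩
  exact ⟨m', ⟨m'.2, h3.trans (add_le_add hyR le_rfl)⟩, h2⟩

theorem span_map [NeZero N] (hZ : ∀ i, EuclideanSpace.single i (1 : ℝ) ∈ M) :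
    Submodule.span ℝ (((kerL M Φ).map (prj W) :
      AddSubgroup (Wᗮ : Submodule ℝ (EuclideanSpace ℝ (Fin k)))) :
      Set (Wᗮ : Submodule ℝ (EuclideanSpace ℝ (Fin k)))) = ⊤ := by
  have h1 : (((kerL M Φ).map (prj W) :
      AddSubgroup (Wᗮ : Submodule ℝ (EuclideanSpace ℝ (Fin k)))) :
      Set (Wᗮ : Submodule ℝ (EuclideanSpace ℝ (Fin k))))
      = ((Wᗮ).orthogonalProjectionOnto : EuclideanSpace ℝ (Fin k) →ₗ[ℝ] _) ''
        (kerL M Φ : Set (EuclideanSpace ℝ (Fin k))) := by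
    rw [AddSubgroup.coe_map]
    rfl
  rw [h1, ← Submodule.map_span, kerL_span M Φ hZ, Submodule.map_top]
  rw [LinearMap.range_eq_top]
  intro v
  exact ⟨(v : EuclideanSpace ℝ (Fin k)),
    Submodule.orthogonalProjectionOnto_mem_subspace_eq_self v⟩

theorem cover (hk : 1 ≤ k) (hZ : ∀ i, EuclideanSpace.single i (1 : ℝ) ∈ M)
    (p : (Wᗮ : Submodule ℝ (EuclideanSpace ℝ (Fin k)))) :
    ∃ g : M, ‖prj W (g : EuclideanSpace ℝ (Fin k)) - p‖ ≤ (k : ℝ) / 2 := by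
  obtain ⟨x, hx⟩ : ∃ x : EuclideanSpace ℝ (Fin k), x = (p : EuclideanSpace ℝ (Fin k)) := ⟨_, rfl⟩
  have hmem : ∑ i, (round (x i)) • EuclideanSpace.single i (1 : ℝ) ∈ M :=
    M.sum_mem fun i _ => M.zsmul_mem (hZ i) _
  refine ⟨⟨_, hmem⟩, ?_⟩
  have hp : prj W x = p := by
    rw [prj_apply, hx]
    exact Submodule.orthogonalProjectionOnto_mem_subspace_eq_self p
  show ‖prj W (∑ i, (round (x i)) • EuclideanSpace.single i (1 : ℝ)) - p‖ ≤ _
  rw [← hp, ← map_sub]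
  refine (prj_norm_le W _).trans ?_
  have hco : ∀ j, (∑ i, (round (x i)) • EuclideanSpace.single i (1 : ℝ)
      : EuclideanSpace ℝ (Fin k)) j = round (x j) := by
    intro j
    simp [Pi.single_apply]
  have hk0 : (0 : ℝ) ≤ (k : ℝ) / 2 := by positivity
  rw [← abs_of_nonneg (norm_nonneg _), ← abs_of_nonneg hk0, ← sq_le_sq,
    EuclideanSpace.norm_sq_eq]
  calc ∑ j, ‖(∑ i, (round (x i)) • EuclideanSpace.single i (1 : ℝ) - x
      : EuclideanSpace ℝ (Fin k)) j‖ ^ 2 ≤ ∑ _j : Fin k, (1 / 4 : ℝ) := by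
        refine Finset.sum_le_sum fun j _ => ?_
        rw [PiLp.sub_apply, hco, Real.norm_eq_abs, sq_abs, ← sq_abs]
        have h1 := abs_sub_round (x j)
        rw [abs_sub_comm] at h1
        have h2 := abs_nonneg ((round (x j) : ℝ) - x j)
        nlinarith
    _ = (k : ℝ) / 4 := by simp; ring
    _ ≤ ((k : ℝ) / 2) ^ 2 := by
        have : (1 : ℝ) ≤ k := by exact_mod_cast hk
        nlinarith

theorem norm_le_of_coord (hk : 1 ≤ k) (x : EuclideanSpace ℝ (Fin k)) (hx : ∀ i, |x i| ≤ 1) :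
    ‖x‖ ≤ k := by
  have hk0 : (0 : ℝ) ≤ (k : ℝ) := by positivity
  rw [← abs_of_nonneg (norm_nonneg x), ← abs_of_nonneg hk0, ← sq_le_sq,
    EuclideanSpace.norm_sq_eq]
  calc ∑ j, ‖x j‖ ^ 2 ≤ ∑ _j : Fin k, (1 : ℝ) := by
        refine Finset.sum_le_sum fun j _ => ?_
        rw [Real.norm_eq_abs]
        have h1 := hx j
        have h2 := abs_nonneg (x j)
        nlinarith
    _ = (k : ℝ) := by simp
    _ ≤ (k : ℝ) ^ 2 := by
        have : (1 : ℝ) ≤ k := by exact_mod_cast hk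
        nlinarith

end work

end Pool.H84.CP
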