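import Pool.Agent.H84.CP.Core1

set_option autoImplicit false

/-!
The core theorem with a parameter `B`, `k ^ 3 ≤ B * q`.
-/

namespace Pool.H84.CP

open scoped BigOperators

theorem core_data {N : ℕ} [NeZero N] (k : ℕ) (hk : 1 ≤ k)
    (M : AddSubgroup (EuclideanSpace ℝ (Fin k))) (Φ : M →+ ZMod N)
    (hfin : ∀ R : ℝ, {x : EuclideanSpace ℝ (Fin k) | x ∈ M ∧ ‖x‖ ≤ R}.Finite)
    (hZ : ∀ i, EuclideanSpace.single i (1 : ℝ) ∈ M)
    (A : Finset (ZMod N))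
    (hAM : ∀ a ∈ A, ∃ m : M, Φ m = a ∧ ∀ i, |(m : EuclideanSpace ℝ (Fin k)) i| ≤ 1) :
    ∃ (n : ℕ) (lam : Fin n → ℝ) (f : Fin n → (M →+ ℝ)) (l : Fin n → M), n ≤ k ∧
      (∀ i, 0 < lam i) ∧
      (∀ i m, Φ m = 0 → ∃ z : ℤ, f i m = z) ∧
      (∀ i, Φ (l i) = 0) ∧
      ((∏ i, max 1 (lam i)) * (A.card : ℝ) ≤ (196 * (k : ℝ) ^ 7) ^ n * (N : ℝ)) ∧
      ∀ (m : M) (z : Fin n → ℤ), (∑ i, |f i m - z i| * (n * lam i)) ≤ 1 / (2 * (k : ℝ)) →
        ∃ m' : M, Φ m' = Φ m ∧ ‖(m' : EuclideanSpace ℝ (Fin k))‖ ≤ 1 / (k : ℝ) := by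
  classical
  have hk1 : (1 : ℝ) ≤ k := by exact_mod_cast hk
  have hkpos : (0 : ℝ) < k := by linarith
  obtain ⟨W, hW0, hWs⟩ := exists_W (kerL M Φ) (1 / (k : ℝ) ^ 2) (by positivity)
  have hW : ∀ w ∈ W, ∃ l ∈ kerL M Φ, l ∈ W ∧ ‖w - l‖ ≤ 1 / (2 * (k : ℝ)) := by
    intro w hw
    obtain ⟨l, h1, h2, h3⟩ := hW0 w hw
    refine ⟨l, h1, h2, h3.trans (le_of_eq ?_)⟩
    rw [finrank_euclideanSpace_fin]
    field_simp
  set n := Module.finrank ℝ (Wᗮ : Submodule ℝ (EuclideanSpace ℝ (Fin k))) with hn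
  have hnk : n ≤ k := by
    have := Submodule.finrank_le (Wᗮ : Submodule ℝ (EuclideanSpace ℝ (Fin k)))
    rwa [finrank_euclideanSpace_fin] at this
  obtain ⟨b, γ, lam, T, hb, hγ, hint, hmono, hpos, hbn, hT, hTs, hlast⟩ :=
    exists_red n (Wᗮ : Submodule ℝ (EuclideanSpace ℝ (Fin k))) hn.symm
      ((kerL M Φ).map (prj W)) (fin_map M Φ W _ hfin hW) (span_map M Φ W hZ)
  have hπ : ∀ m : M, Φ m = 0 → prj W (m : EuclideanSpace ℝ (Fin k)) ∈ (kerL M Φ).map (prj W) := by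
    intro m hm
    exact AddSubgroup.mem_map_of_mem _ ((mem_kerL M Φ _).2 ⟨m.2, hm⟩)
  have hl : ∀ i, ∃ l : M, Φ l = 0 ∧ prj W (l : EuclideanSpace ℝ (Fin k)) = b i := by
    intro i
    have := hb i
    rw [AddSubgroup.mem_map] at this
    obtain ⟨x, hx, hxb⟩ := this
    obtain ⟨h1, h2⟩ := (mem_kerL M Φ x).1 hx
    exact ⟨⟨x, h1⟩, h2, hxb⟩
  choose l hl0 hlb using hl
  refine ⟨n, lam, fun i => ((γ i).toAddMonoidHom.comp (prj W)).comp M.subtype, l, hnk, hpos,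
    ?_, hl0, ?_, ?_⟩
  · intro i m hm
    exact hint _ (hπ m hm) i
  · refine packing ((prj W).comp M.subtype) Φ k n hk hnk T hT hTs lam hmono hpos ?_ ?_ ?_ A ?_
    · intro g hg i hi
      exact hlast _ (hπ g hg) i hi
    · intro g hg h0
      refine hWs g ((mem_kerL M Φ _).2 ⟨g.2, hg⟩) fun hgW => h0 ?_
      exact prj_of_mem W hgW
    · intro p
      exact cover M W hk hZ p
    · intro a ha
      obtain ⟨m, hm, hm1⟩ := hAM a ha
      exact ⟨m, hm, (prj_norm_le W _).trans (norm_le_of_coord hk _ hm1)⟩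
  · intro m z hsum
    have hm1 : Φ (m - ∑ i, z i • l i) = Φ m := by
      rw [map_sub, map_sum]
      simp [hl0]
    have hm2 : prj W ((m - ∑ i, z i • l i : M) : EuclideanSpace ℝ (Fin k))
        = ∑ i, (γ i (prj W (m : EuclideanSpace ℝ (Fin k))) - z i) • b i := by
      have h1 : ((m - ∑ i, z i • l i : M) : EuclideanSpace ℝ (Fin k))
          = m - ∑ i, z i • (l i : EuclideanSpace ℝ (Fin k)) := by
        simp
      rw [h1, map_sub, map_sum]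
      simp only [map_zsmul, hlb, sub_smul, Finset.sum_sub_distrib]
      rw [← hγ (prj W (m : EuclideanSpace ℝ (Fin k)))]
      simp only [Int.cast_smul_eq_zsmul]
    have hm3 : ‖prj W ((m - ∑ i, z i • l i : M) : EuclideanSpace ℝ (Fin k))‖
        ≤ 1 / (2 * (k : ℝ)) := by
      rw [hm2]
      refine (norm_sum_le _ _).trans (le_trans ?_ hsum)
      refine Finset.sum_le_sum fun i _ => ?_
      rw [norm_smul, Real.norm_eq_abs]
      exact mul_le_mul_of_nonneg_left (hbn i) (abs_nonneg _)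
    obtain ⟨m', h1, -, -, h3⟩ := reduce M Φ W _ hW (m - ∑ i, z i • l i)
    refine ⟨m', h1.trans hm1, h3.trans ?_⟩
    calc ‖prj W ((m - ∑ i, z i • l i : M) : EuclideanSpace ℝ (Fin k))‖ + 1 / (2 * (k : ℝ))
        ≤ 1 / (2 * (k : ℝ)) + 1 / (2 * (k : ℝ)) := add_le_add hm3 le_rfl
      _ = 1 / (k : ℝ) := by field_simp; norm_num

end Pool.H84.CP
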