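import Pool.Agent.H84.CP.Core2

set_option autoImplicit false

/-!
The core theorem with a parameter `B`, `k ^ 3 ≤ B * q`.
-/

namespace Pool.H84.CP

open scoped BigOperators

theorem core_gen {N : ℕ} [NeZero N] (k : ℕ) (hk : 1 ≤ k)
    (M : AddSubgroup (EuclideanSpace ℝ (Fin k))) (Φ : M →+ ZMod N)
    (hfin : ∀ R : ℝ, {x : EuclideanSpace ℝ (Fin k) | x ∈ M ∧ ‖x‖ ≤ R}.Finite)
    (hZ : ∀ i, EuclideanSpace.single i (1 : ℝ) ∈ M)
    (A : Finset (ZMod N)) (hA : A.Nonempty)
    (hAM : ∀ a ∈ A, ∃ m : M, Φ m = a ∧ ∀ i, |(m : EuclideanSpace ℝ (Fin k)) i| ≤ 1)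
    (q : ℕ) (hq : 2 ≤ q) (B : ℝ) (hB : 1 ≤ B) (hBq : (k : ℝ) ^ 3 ≤ B * q) :
    ∃ Γ : Finset (ZMod N),
      (Γ.card : ℝ) ≤ 2 * k + 2 + (2 * Real.log ((N : ℝ) / (A.card : ℝ)) + k * Real.log B
        + 7 * (k * Real.log k) + k * Real.log 196) / Real.log q ∧
      ∀ x : ZMod N, (∀ γ ∈ Γ, bn (γ * x) ≤ 1 / (2 * (q : ℝ))) →
        ∃ m : M, Φ m = x ∧ ‖(m : EuclideanSpace ℝ (Fin k))‖ ≤ 1 / (k : ℝ) := by
  classical
  have hk1 : (1 : ℝ) ≤ k := by exact_mod_cast hk
  have hkpos : (0 : ℝ) < k := by linarith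
  have hq1 : (1 : ℝ) < q := by exact_mod_cast (show 1 < q by omega)
  have hqpos : (0 : ℝ) < q := by linarith
  have hlq : 0 < Real.log q := Real.log_pos hq1
  have hApos : (0 : ℝ) < A.card := by exact_mod_cast hA.card_pos
  have hNpos : (0 : ℝ) < N := by exact_mod_cast Nat.pos_of_ne_zero (NeZero.ne N)
  obtain ⟨n, lam, f, l, hnk, hpos, hint, hl0, hprod, hmain⟩ :=
    core_data k hk M Φ hfin hZ A hAM
  obtain ⟨Γ0, hΓ0, hsub⟩ := exists_sub Φ.range A hA
    (fun a ha => by
      obtain ⟨m, hm, -⟩ := hAM a ha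
      exact ⟨m, hm⟩) q hq
  have hg : ∀ i, ∃ g : ZMod N, ∀ m, ∃ z : ℤ, ((g * Φ m).val : ℝ) / (N : ℝ) - f i m = z :=
    fun i => exists_char Φ (f i) (hint i)
  choose g hg using hg
  set X : Fin n → ℝ := fun i => B * max 1 (lam i) with hX
  have hX1 : ∀ i, 1 ≤ X i := fun i => by
    have := le_max_left 1 (lam i)
    show 1 ≤ B * max 1 (lam i)
    nlinarith
  set J : Fin n → ℕ := fun i => ⌈Real.log (X i) / Real.log q⌉₊ with hJ
  have hJ1 : ∀ i, X i ≤ (q : ℝ) ^ J i := by
    intro i
    have h1 : Real.log (X i) / Real.log q ≤ J i := Nat.le_ceil _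
    rw [div_le_iff₀ hlq, ← Real.log_pow] at h1
    exact (Real.log_le_log_iff (by linarith [hX1 i]) (by positivity)).1 h1
  have hJ2 : ∀ i, ((J i + 1 : ℕ) : ℝ) ≤ 2 + Real.log (X i) / Real.log q := by
    intro i
    have h1 : (J i : ℝ) < Real.log (X i) / Real.log q + 1 :=
      Nat.ceil_lt_add_one (div_nonneg (Real.log_nonneg (hX1 i)) hlq.le)
    push_cast
    linarith
  refine ⟨Γ0 ∪ Finset.univ.biUnion fun i =>
    (Finset.range (J i + 1)).image (fun j => (q : ZMod N) ^ j * g i), ?_, ?_⟩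
  · -- the count
    have h1 : (Γ0 ∪ Finset.univ.biUnion fun i =>
        (Finset.range (J i + 1)).image (fun j => (q : ZMod N) ^ j * g i)).card
        ≤ Γ0.card + ∑ i, (J i + 1) := by
      refine (Finset.card_union_le _ _).trans (add_le_add le_rfl ?_)
      refine Finset.card_biUnion_le.trans (Finset.sum_le_sum fun i _ => ?_)
      exact Finset.card_image_le.trans (by simp)
    have h2 : ((Γ0 ∪ Finset.univ.biUnion fun i =>
        (Finset.range (J i + 1)).image (fun j => (q : ZMod N) ^ j * g i)).card : ℝ)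
        ≤ Γ0.card + ∑ i, ((J i + 1 : ℕ) : ℝ) := by exact_mod_cast h1
    have h3 : ∑ i, ((J i + 1 : ℕ) : ℝ) ≤ ∑ i, (2 + Real.log (X i) / Real.log q) :=
      Finset.sum_le_sum fun i _ => hJ2 i
    have h4 : ∑ i, (2 + Real.log (X i) / Real.log q)
        = 2 * n + (∑ i, Real.log (X i)) / Real.log q := by
      rw [Finset.sum_add_distrib, Finset.sum_div]
      simp [mul_comm]
    have h5 : ∑ i, Real.log (X i) = n * Real.log B + Real.log (∏ i, max 1 (lam i)) := by
      rw [Real.log_prod (fun i _ => ne_of_gt (lt_of_lt_of_le one_pos (le_max_left _ _)))]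
      have : ∀ i, Real.log (X i) = Real.log B + Real.log (max 1 (lam i)) := fun i =>
        Real.log_mul (by linarith) (ne_of_gt (lt_of_lt_of_le one_pos (le_max_left _ _)))
      simp only [this, Finset.sum_add_distrib]
      simp
    have h6 : (∏ i, max 1 (lam i)) ≤ (196 * (k : ℝ) ^ 7) ^ n * ((N : ℝ) / (A.card : ℝ)) := by
      rw [← mul_div_assoc, le_div_iff₀ hApos]
      exact hprod
    have hP1 : (0 : ℝ) < ∏ i, max 1 (lam i) :=
      Finset.prod_pos fun i _ => lt_of_lt_of_le one_pos (le_max_left _ _)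
    have h7 : Real.log (∏ i, max 1 (lam i))
        ≤ n * (Real.log 196 + 7 * Real.log k) + Real.log ((N : ℝ) / (A.card : ℝ)) := by
      refine (Real.log_le_log hP1 h6).trans (le_of_eq ?_)
      rw [Real.log_mul (by positivity) (by positivity), Real.log_pow,
        Real.log_mul (by norm_num) (by positivity), Real.log_pow]
      norm_num
    have hnk' : (n : ℝ) ≤ k := by exact_mod_cast hnk
    have hn0 : (0 : ℝ) ≤ n := by positivity
    have hlB : 0 ≤ Real.log B := Real.log_nonneg hB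
    have hlk : 0 ≤ Real.log k := Real.log_nonneg hk1
    have hl196 : 0 ≤ Real.log (196 : ℝ) := Real.log_nonneg (by norm_num)
    have h8 : ∑ i, Real.log (X i) ≤ k * Real.log B + k * (Real.log 196 + 7 * Real.log k)
        + Real.log ((N : ℝ) / (A.card : ℝ)) := by
      rw [h5]
      have e1 : (n : ℝ) * Real.log B ≤ k * Real.log B := mul_le_mul_of_nonneg_right hnk' hlB
      have e2 : (n : ℝ) * (Real.log 196 + 7 * Real.log k)
          ≤ k * (Real.log 196 + 7 * Real.log k) :=
        mul_le_mul_of_nonneg_right hnk' (by positivity)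
      linarith
    have h9 : (∑ i, Real.log (X i)) / Real.log q ≤ (k * Real.log B
        + k * (Real.log 196 + 7 * Real.log k) + Real.log ((N : ℝ) / (A.card : ℝ))) / Real.log q :=
      div_le_div_of_nonneg_right h8 hlq.le
    have h10 : 2 * (k : ℝ) + 2 + (2 * Real.log ((N : ℝ) / (A.card : ℝ)) + k * Real.log B
        + 7 * (k * Real.log k) + k * Real.log 196) / Real.log q
        = (2 + Real.log ((N : ℝ) / (A.card : ℝ)) / Real.log q) + 2 * k + (k * Real.log B
        + k * (Real.log 196 + 7 * Real.log k) + Real.log ((N : ℝ) / (A.card : ℝ))) / Real.log q := by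
      field_simp
      ring
    rw [h10]
    linarith
  · intro x hx
    have hxH : x ∈ Φ.range := hsub x fun γ hγ => hx γ (Finset.mem_union_left _ hγ)
    obtain ⟨m, rfl⟩ := hxH
    have hfi : ∀ i, |f i m - ((round (f i m) : ℤ) : ℝ)| ≤ 1 / (2 * (q : ℝ)) / (q : ℝ) ^ J i := by
      intro i
      rw [← bn_eq (g i * Φ m) (f i m) (hg i m)]
      refine bn_digits q hq _ (J i) fun j hj => ?_
      have := hx ((q : ZMod N) ^ j * g i) (Finset.mem_union_right _ (by
        rw [Finset.mem_biUnion]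
        exact ⟨i, Finset.mem_univ i, Finset.mem_image.2
          ⟨j, Finset.mem_range.2 (by omega), rfl⟩⟩))
      rwa [mul_assoc] at this
    refine hmain m (fun i => round (f i m)) ?_
    have hnk' : (n : ℝ) ≤ k := by exact_mod_cast hnk
    have hn0 : (0 : ℝ) ≤ n := by positivity
    have hBpos : 0 < B := by linarith
    have hterm : ∀ i, |f i m - ((round (f i m) : ℤ) : ℝ)| * (n * lam i)
        ≤ k / (2 * q * B) := by
      intro i
      have hlam := hpos i
      have hM : (0 : ℝ) < max 1 (lam i) := lt_of_lt_of_le one_pos (le_max_left _ _)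
      have h1 : |f i m - ((round (f i m) : ℤ) : ℝ)| ≤ 1 / (2 * (q : ℝ)) / (B * max 1 (lam i)) := by
        refine (hfi i).trans ?_
        exact div_le_div_of_nonneg_left (by positivity) (by positivity) (hJ1 i)
      have h2 : (n : ℝ) * lam i ≤ k * max 1 (lam i) :=
        mul_le_mul hnk' (le_max_right _ _) hlam.le hkpos.le
      calc |f i m - ((round (f i m) : ℤ) : ℝ)| * (n * lam i)
          ≤ 1 / (2 * (q : ℝ)) / (B * max 1 (lam i)) * (k * max 1 (lam i)) :=
            mul_le_mul h1 h2 (by positivity) (by positivity)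
        _ = k / (2 * q * B) := by field_simp
    calc ∑ i, |f i m - ((round (f i m) : ℤ) : ℝ)| * (n * lam i)
        ≤ ∑ _i : Fin n, k / (2 * q * B) := Finset.sum_le_sum fun i _ => hterm i
      _ = n * (k / (2 * q * B)) := by simp
      _ ≤ k * (k / (2 * q * B)) := mul_le_mul_of_nonneg_right hnk' (by positivity)
      _ ≤ 1 / (2 * (k : ℝ)) := by
        rw [← mul_div_assoc, div_le_div_iff₀ (by positivity) (by positivity)]
        nlinarith

end Pool.H84.CP
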