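import Pool.Agent.H84.CP.Thm
import Pool.Agent.H84.CP.Boh
import Pool.Agent.H84.CP.Bcd

set_option autoImplicit false

/-!
Row CP_Eqv. The equivalence of the Bohr set form (Q1) and the progression form.

`L ≥ log 2` always. (Bohr → progression) `P` = the Bohr set (a filter), `d = |Γ| + 1 ≤ (C+2) L`,
`bohr_card`, `1/ε ≤ L/c`, `log (1 + L/c) ≤ C'' log (L+2)`.
(progression → Bohr) we may enlarge `C` to `C ≥ 1` (monotone), `q = ⌈C L⌉₊ + 2`,
`progression_contains_bohr`: `|Γ| ≤ 19 d + 2 + 2 C L log(L+2)/log q ≤ (21 C + 4) L` because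
`log q ≥ log (C L + 2) ≥ log (L + 2)`; `ε = 1/(2q) ≥ c/L`.
-/

namespace Pool.H84.CP

theorem Eqv_half {N : ℕ} (hN : 0 < N) (A : Finset (ZMod N)) (hA : A.Nonempty)
    (h : (A.card : ℝ) / (N : ℝ) ≤ 1 / 2) : 1 / 2 ≤ Real.log ((N : ℝ) / (A.card : ℝ)) := by
  have hN' : (0 : ℝ) < N := by exact_mod_cast hN
  have hA' : (0 : ℝ) < A.card := by exact_mod_cast hA.card_pos
  have h1 : (2 : ℝ) ≤ (N : ℝ) / (A.card : ℝ) := by
    rw [div_le_iff₀ hN'] at h
    rw [le_div_iff₀ hA']
    linarith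
  have h2 : Real.log 2 ≤ Real.log ((N : ℝ) / (A.card : ℝ)) := Real.log_le_log (by norm_num) h1
  have h3 := Real.log_two_gt_d9
  linarith

theorem Eqv_log2 {L : ℝ} (hL : 1 / 2 ≤ L) : 1 / 2 ≤ Real.log (L + 2) := by
  have h2 : Real.log 2 ≤ Real.log (L + 2) := Real.log_le_log (by norm_num) (by linarith)
  have h3 := Real.log_two_gt_d9
  linarith

theorem equivalence :
    (∃ C : ℝ, 0 < C ∧ ∃ c : ℝ, 0 < c ∧
      ∀ N : ℕ, 0 < N → ∀ A : Finset (ZMod N), A.Nonempty →
        (A.card : ℝ) / (N : ℝ) ≤ 1 / 2 →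
        ∃ Γ : Finset (ZMod N), ∃ ε : ℝ, 0 < ε ∧
          (Γ.card : ℝ) ≤ C * Real.log ((N : ℝ) / (A.card : ℝ)) ∧
          c / Real.log ((N : ℝ) / (A.card : ℝ)) ≤ ε ∧
          ∀ x : ZMod N, (∀ γ ∈ Γ, bn (γ * x) ≤ ε) →
            ∃ a₁ ∈ A, ∃ a₂ ∈ A, ∃ a₃ ∈ A, ∃ a₄ ∈ A, x = a₁ + a₂ - a₃ - a₄) ↔
    (∃ C : ℝ, 0 < C ∧
      ∀ N : ℕ, 0 < N → ∀ A : Finset (ZMod N), A.Nonempty →
        (A.card : ℝ) / (N : ℝ) ≤ 1 / 2 →
        ∀ L : ℝ, L = Real.log ((N : ℝ) / (A.card : ℝ)) →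
        ∃ (d : ℕ) (P : Finset (ZMod N)), IsConvexProgression d P ∧ (d : ℝ) ≤ C * L ∧
          (N : ℝ) * Real.exp (-(C * (L * Real.log (L + 2)))) ≤ (P.card : ℝ) ∧
          ∀ x ∈ P, ∃ a₁ ∈ A, ∃ a₂ ∈ A, ∃ a₃ ∈ A, ∃ a₄ ∈ A, x = a₁ + a₂ - a₃ - a₄) := by
  classical
  constructor
  · rintro ⟨C, hC, c, hc, hB⟩
    set C2 : ℝ := 2 * Real.log (1 + 1 / c) + 1 with hC2
    have hlc : 0 ≤ Real.log (1 + 1 / c) := Real.log_nonneg (by
      have : 0 < 1 / c := by positivity
      linarith)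
    have hC2pos : 0 < C2 := by linarith
    refine ⟨(C + 2) + C * C2, by positivity, ?_⟩
    intro N hN A hA hhalf L hL
    have : NeZero N := ⟨hN.ne'⟩
    have hL2 : 1 / 2 ≤ L := by
      rw [hL]
      exact Eqv_half hN A hA hhalf
    have hlog := Eqv_log2 hL2
    obtain ⟨Γ, ε, hε, hΓ, hεL, hx⟩ := hB N hN A hA hhalf
    rw [← hL] at hΓ hεL
    set P : Finset (ZMod N) := Finset.univ.filter (fun x => ∀ γ ∈ Γ, bn (γ * x) ≤ ε) with hPdef
    have hP : ∀ x, x ∈ P ↔ ∀ γ ∈ Γ, bn (γ * x) ≤ ε := by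
      intro x
      simp [hPdef]
    refine ⟨Γ.card + 1, P, bohr_isConvexProgression Γ ε P hP, ?_, ?_, ?_⟩
    · push_cast
      have : 0 ≤ C * C2 * L := by positivity
      nlinarith
    · have h1 := bohr_card Γ ε hε P hP
      have hLpos : 0 < L := by linarith
      have h2 : 1 / ε ≤ L / c := by
        rw [div_le_div_iff₀ hε hc]
        rw [div_le_iff₀ hLpos] at hεL
        linarith
      have h3 : 1 + 1 / ε ≤ (1 + 1 / c) * (L + 2) := by
        have h4 : L / c = 1 / c * L := by ring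
        have h5 : 0 < 1 / c := by positivity
        nlinarith
      have h6 : Real.log (1 + 1 / ε) ≤ C2 * Real.log (L + 2) := by
        have h7 : 0 < 1 / ε := by positivity
        have h8 : 0 < 1 / c := by positivity
        have h9 := Real.log_le_log (by linarith) h3
        rw [Real.log_mul (by linarith) (by linarith)] at h9
        have h10 : Real.log (1 + 1 / c) ≤ 2 * Real.log (1 + 1 / c) * Real.log (L + 2) := by
          nlinarith
        rw [hC2]
        nlinarith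
      have h7 : (1 + 1 / ε) ^ Γ.card ≤ Real.exp (C * L * (C2 * Real.log (L + 2))) := by
        have h8 : 0 < 1 / ε := by positivity
        have h9 : (1 + 1 / ε) ^ Γ.card = Real.exp (Γ.card * Real.log (1 + 1 / ε)) := by
          rw [mul_comm, Real.exp_mul, Real.exp_log (by linarith), Real.rpow_natCast]
        rw [h9]
        apply Real.exp_le_exp.2
        apply mul_le_mul hΓ h6 (Real.log_nonneg (by linarith)) (by positivity)
      have h8 : (N : ℝ) ≤ P.card * Real.exp (C * L * (C2 * Real.log (L + 2))) :=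
        h1.trans (mul_le_mul_of_nonneg_left h7 (Nat.cast_nonneg _))
      have h9 : (N : ℝ) * Real.exp (-(C * L * (C2 * Real.log (L + 2)))) ≤ P.card := by
        rw [Real.exp_neg, ← div_eq_mul_inv, div_le_iff₀ (Real.exp_pos _)]
        exact h8
      refine le_trans ?_ h9
      apply mul_le_mul_of_nonneg_left _ (Nat.cast_nonneg _)
      apply Real.exp_le_exp.2
      have h10 : 0 ≤ (C + 2) * (L * Real.log (L + 2)) := by positivity
      nlinarith
    · intro x hxP
      exact hx x ((hP x).1 hxP)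
  · rintro ⟨C, hC, hB⟩
    refine ⟨21 * C + 4, by positivity, 1 / (2 * (C + 1 + 6)), by positivity, ?_⟩
    intro N hN A hA hhalf
    have : NeZero N := ⟨hN.ne'⟩
    have hL2 := Eqv_half hN A hA hhalf
    set L : ℝ := Real.log ((N : ℝ) / (A.card : ℝ)) with hL
    have hlog := Eqv_log2 hL2
    have hLpos : 0 < L := by linarith
    obtain ⟨d, P, hcp, hd, hcard, hx⟩ := hB N hN A hA hhalf L rfl
    have hN' : (0 : ℝ) < N := by exact_mod_cast hN
    have hPpos : (0 : ℝ) < P.card := lt_of_lt_of_le (by positivity) hcard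
    have hPne : P.Nonempty := by
      rw [← Finset.card_pos]
      exact_mod_cast hPpos
    have hlogP : Real.log ((N : ℝ) / (P.card : ℝ)) ≤ C * (L * Real.log (L + 2)) := by
      rw [Real.log_le_iff_le_exp (by positivity), div_le_iff₀ hPpos]
      rw [Real.exp_neg, ← div_eq_mul_inv, div_le_iff₀ (Real.exp_pos _)] at hcard
      linarith
    set q : ℕ := ⌈(C + 1) * L⌉₊ + 2 with hq
    have hceil : (C + 1) * L ≤ (⌈(C + 1) * L⌉₊ : ℝ) := Nat.le_ceil _
    have hceil2 : (⌈(C + 1) * L⌉₊ : ℝ) < (C + 1) * L + 1 := Nat.ceil_lt_add_one (by positivity)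
    have hqr : (q : ℝ) = (⌈(C + 1) * L⌉₊ : ℝ) + 2 := by
      rw [hq]; push_cast; ring
    have hdq : d ≤ q := by
      have : (d : ℝ) ≤ (q : ℝ) := by
        rw [hqr]
        nlinarith
      exact_mod_cast this
    obtain ⟨Γ, hΓ, hΓx⟩ := progression_contains_bohr d P hPne hcp q (by omega) hdq
    have hq0 : (0 : ℝ) < q := by
      rw [hqr]
      positivity
    refine ⟨Γ, 1 / (2 * (q : ℝ)), by positivity, ?_, ?_, ?_⟩
    · have hlq : Real.log (L + 2) ≤ Real.log q := by
        apply Real.log_le_log (by linarith)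
        rw [hqr]
        nlinarith
      have h1 : Real.log ((N : ℝ) / (P.card : ℝ)) / Real.log q ≤ C * L := by
        rw [div_le_iff₀ (by linarith)]
        have : C * L * Real.log (L + 2) ≤ C * L * Real.log q :=
          mul_le_mul_of_nonneg_left hlq (by positivity)
        linarith
      nlinarith
    · rw [div_div, div_le_div_iff₀ (by positivity) (by positivity)]
      have h1 : (q : ℝ) ≤ (C + 1 + 6) * L := by
        rw [hqr]
        nlinarith
      nlinarith
    · intro x hxΓ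
      exact hx x (hΓx x hxΓ)

end Pool.H84.CP
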