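import Pool.Agent.H84.CP.Core
import Pool.Agent.H84.CP.Auer

set_option autoImplicit false

/-!
Row CP_Thm. Theorem 1: a convex progression contains a large Bohr set.

For each `a ∈ P` choose `s a : Fin d → ℤ` with `(s a : ℝ^d) ∈ K`, `φ (s a) = a`; `S` the set of
these real vectors; `auerbach` gives `c`. If `k = 0` then `P = {0}`: use `exists_sub` with `H = ⊥`.
If `k ≥ 1`: `M = {t | ∃ m : Fin d → ℤ, (m : ℝ^d) = ∑ t i • c i}`, `Φ t = φ m` (`m` is unique);
balls of `M` are finite (bounded `t` give bounded `m`, finitely many `m`, and `m` determines `t`);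
`single i 1 ∈ M` as `c i ∈ S` is an integer vector. Apply `core` (`k ≤ d ≤ q`). If `‖t‖ ≤ 1/k` then
`∑ |t i| ≤ 1`, and `∑ t i • c i ∈ K` by convexity and symmetry, so `Φ t = φ m ∈ P`.
-/

namespace Pool.H84.CP

/-- The embedding of the integer vectors in the real vectors. -/
def Thm_io (d : ℕ) : (Fin d → ℤ) →+ (Fin d → ℝ) where
  toFun m := fun i => (m i : ℝ)
  map_zero' := by funext i; simp
  map_add' a b := by funext i; simp

theorem Thm_io_inj (d : ℕ) : Function.Injective (Thm_io d) := by
  intro a b h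
  funext i
  have := congrFun h i
  simp only [Thm_io, AddMonoidHom.coe_mk, ZeroHom.coe_mk] at this
  exact_mod_cast this

/-- The linear map `t ↦ ∑ t i • c i`. -/
noncomputable def Thm_lin {d k : ℕ} (c : Fin k → (Fin d → ℝ)) :
    EuclideanSpace ℝ (Fin k) →ₗ[ℝ] (Fin d → ℝ) where
  toFun t := ∑ i, t i • c i
  map_add' a b := by
    simp only [PiLp.add_apply, add_smul, Finset.sum_add_distrib]
  map_smul' r a := by
    simp only [PiLp.smul_apply, smul_eq_mul, mul_smul, Finset.smul_sum, RingHom.id_apply]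

theorem Thm_lin_apply {d k : ℕ} (c : Fin k → (Fin d → ℝ)) (t : EuclideanSpace ℝ (Fin k)) :
    Thm_lin c t = ∑ i, t i • c i := rfl

theorem Thm_lin_inj {d k : ℕ} (c : Fin k → (Fin d → ℝ)) (hc : LinearIndependent ℝ c) :
    Function.Injective (Thm_lin c) := by
  rw [← LinearMap.ker_eq_bot, LinearMap.ker_eq_bot']
  intro t ht
  rw [Thm_lin_apply] at ht
  have h := Fintype.linearIndependent_iff.1 hc (fun i => t i) ht
  ext i
  simpa using h i

theorem Thm_convex {d k : ℕ} (hk : 1 ≤ k) (K : Set (Fin d → ℝ)) (hK : Convex ℝ K)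
    (hs : ∀ v ∈ K, -v ∈ K) (c : Fin k → (Fin d → ℝ)) (hc : ∀ i, c i ∈ K) (t : Fin k → ℝ)
    (ht : ∑ i, |t i| ≤ 1) : ∑ i, t i • c i ∈ K := by
  have h0 : (0 : Fin d → ℝ) ∈ K := by
    have h1 := hc ⟨0, hk⟩
    have h2 := hK h1 (hs _ h1) (a := 1 / 2) (b := 1 / 2) (by norm_num) (by norm_num)
      (by norm_num)
    simpa using h2
  let w : Option (Fin k) → ℝ := fun o => o.elim (1 - ∑ i, |t i|) (fun i => |t i|)
  let z : Option (Fin k) → (Fin d → ℝ) := fun o => o.elim 0 (fun i => (SignType.sign (t i) : ℝ) • c i)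
  have h := hK.sum_mem (t := (Finset.univ : Finset (Option (Fin k)))) (w := w) (z := z) (by
      intro o _
      cases o with
      | none => simp only [w, Option.elim]; linarith
      | some i => simp only [w, Option.elim]; exact abs_nonneg _) (by
      rw [Fintype.sum_option]
      simp only [w, Option.elim]
      linarith) (by
      intro o _
      cases o with
      | none => simpa only [z, Option.elim] using h0
      | some i =>
        simp only [z, Option.elim]
        rcases lt_trichotomy (t i) 0 with h | h | h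
        · rw [sign_neg h]
          simpa using hs _ (hc i)
        · rw [h, sign_zero]
          simpa using h0
        · rw [sign_pos h]
          simpa using hc i)
  rw [Fintype.sum_option] at h
  simp only [w, z, Option.elim, smul_zero, zero_add, smul_smul] at h
  have e : ∀ i, |t i| * (SignType.sign (t i) : ℝ) = t i := fun i => abs_mul_sign (t i)
  simpa only [e] using h

theorem progression_contains_bohr {N : ℕ} [NeZero N] (d : ℕ) (P : Finset (ZMod N))
    (hP : P.Nonempty) (h : IsConvexProgression d P) (q : ℕ) (hq : 2 ≤ q) (hdq : d ≤ q) :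
    ∃ Γ : Finset (ZMod N),
      (Γ.card : ℝ) ≤ 19 * d + 2 + 2 * (Real.log ((N : ℝ) / (P.card : ℝ)) / Real.log q) ∧
      ∀ x : ZMod N, (∀ γ ∈ Γ, bn (γ * x) ≤ 1 / (2 * (q : ℝ))) → x ∈ P := by
  classical
  obtain ⟨K, φ, hconv, hsym, hPK⟩ := h
  have hL0 : 0 ≤ Real.log ((N : ℝ) / (P.card : ℝ)) / Real.log q := by
    apply div_nonneg
    · apply Real.log_nonneg
      have h1 : (0 : ℝ) < (P.card : ℝ) := by exact_mod_cast hP.card_pos
      rw [le_div_iff₀ h1, one_mul]
      have h2 : P.card ≤ N := by
        have := Finset.card_le_univ P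
        rwa [ZMod.card] at this
      exact_mod_cast h2
    · apply Real.log_nonneg
      have : (1 : ℕ) ≤ q := by omega
      exact_mod_cast this
  have hs : ∀ a : ZMod N, ∃ n : Fin d → ℤ, a ∈ P → (Thm_io d n ∈ K ∧ φ n = a) := by
    intro a
    by_cases ha : a ∈ P
    · obtain ⟨n, h1, h2⟩ := (hPK a).1 ha
      exact ⟨n, fun _ => ⟨h1, h2⟩⟩
    · exact ⟨0, fun h => absurd h ha⟩
  choose s hs using hs
  obtain ⟨k, c, hkd, hcS, hli, hrep⟩ := auerbach (P.image (fun a => Thm_io d (s a)))
  have hcS' : ∀ i, ∃ a ∈ P, Thm_io d (s a) = c i := by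
    intro i
    have := hcS i
    rw [Finset.mem_image] at this
    exact this
  rcases Nat.eq_zero_or_pos k with hk | hk
  · subst hk
    have hz : ∀ a ∈ P, a = 0 := by
      intro a ha
      obtain ⟨t, -, ht⟩ := hrep (Thm_io d (s a)) (Finset.mem_image_of_mem _ ha)
      rw [Finset.univ_eq_empty, Finset.sum_empty] at ht
      have h1 : s a = 0 := Thm_io_inj d (by rw [ht, map_zero])
      rw [← (hs a ha).2, h1, map_zero]
    obtain ⟨Γ, h1, h2⟩ := exists_sub (⊥ : AddSubgroup (ZMod N)) P hP (by
      intro a ha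
      rw [hz a ha]
      exact AddSubgroup.zero_mem _) q hq
    refine ⟨Γ, ?_, ?_⟩
    · have : (0 : ℝ) ≤ (d : ℝ) := Nat.cast_nonneg d
      linarith
    · intro x hx
      have h3 := h2 x hx
      rw [AddSubgroup.mem_bot] at h3
      obtain ⟨a, ha⟩ := hP
      rw [h3, ← hz a ha]
      exact ha
  · let M : AddSubgroup (EuclideanSpace ℝ (Fin k)) :=
      ((Thm_io d).range).comap (Thm_lin c).toAddMonoidHom
    have hM : ∀ t : EuclideanSpace ℝ (Fin k), t ∈ M ↔ ∃ m : Fin d → ℤ, Thm_io d m = Thm_lin c t := by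
      intro t
      simp only [M, AddSubgroup.mem_comap, AddMonoidHom.mem_range]
      rfl
    choose m hm using fun t : M => (hM t).1 t.2
    let Φ : M →+ ZMod N := AddMonoidHom.mk' (fun t => φ (m t)) (by
      intro a b
      rw [← map_add]
      congr 1
      apply Thm_io_inj d
      rw [hm, map_add, hm, hm, AddSubgroup.coe_add, map_add])
    have hΦ : ∀ t : M, Φ t = φ (m t) := fun _ => rfl
    have hfin : ∀ R : ℝ, {x : EuclideanSpace ℝ (Fin k) | x ∈ M ∧ ‖x‖ ≤ R}.Finite := by
      intro R
      let B : ℤ := ⌈‖LinearMap.toContinuousLinearMap (Thm_lin c)‖ * R⌉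
      have hF : (Set.Icc (fun _ => -B : Fin d → ℤ) (fun _ => B)).Finite := Set.finite_Icc _ _
      have hF2 := (hF.image (Thm_io d)).preimage (f := Thm_lin c)
        (Thm_lin_inj c hli).injOn
      apply hF2.subset
      rintro x ⟨hxM, hxR⟩
      obtain ⟨n, hn⟩ := (hM x).1 hxM
      refine ⟨n, ?_, hn⟩
      have hb : ∀ j, |(n j : ℝ)| ≤ B := by
        intro j
        have h1 : (n j : ℝ) = Thm_lin c x j := by
          have := congrFun hn j
          exact this
        rw [h1, ← Real.norm_eq_abs]
        have h2 := norm_le_pi_norm (Thm_lin c x) j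
        have h3 := (LinearMap.toContinuousLinearMap (Thm_lin c)).le_opNorm x
        have h4 : ‖LinearMap.toContinuousLinearMap (Thm_lin c)‖ * ‖x‖
            ≤ ‖LinearMap.toContinuousLinearMap (Thm_lin c)‖ * R :=
          mul_le_mul_of_nonneg_left hxR (norm_nonneg _)
        have h5 : ‖LinearMap.toContinuousLinearMap (Thm_lin c)‖ * R ≤ (B : ℝ) := Int.le_ceil _
        have h6 : ‖(LinearMap.toContinuousLinearMap (Thm_lin c)) x‖ = ‖Thm_lin c x‖ := rfl
        rw [h6] at h3
        linarith
      rw [Set.mem_Icc]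
      constructor
      · intro j
        have := (abs_le.1 (hb j)).1
        show -B ≤ n j
        exact_mod_cast this
      · intro j
        have := (abs_le.1 (hb j)).2
        show n j ≤ B
        exact_mod_cast this
    have hZ : ∀ i, EuclideanSpace.single i (1 : ℝ) ∈ M := by
      intro i
      rw [hM]
      obtain ⟨a, -, ha⟩ := hcS' i
      refine ⟨s a, ?_⟩
      rw [ha, Thm_lin_apply]
      rw [Finset.sum_eq_single i]
      · simp
      · intro j _ hj
        simp [hj]
      · intro hi
        exact absurd (Finset.mem_univ i) hi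
    have hAM : ∀ a ∈ P, ∃ m' : M, Φ m' = a ∧ ∀ i, |(m' : EuclideanSpace ℝ (Fin k)) i| ≤ 1 := by
      intro a ha
      obtain ⟨t, ht1, ht2⟩ := hrep (Thm_io d (s a)) (Finset.mem_image_of_mem _ ha)
      have e : Thm_lin c (WithLp.toLp 2 t) = Thm_io d (s a) := by
        rw [ht2, Thm_lin_apply]
      refine ⟨⟨WithLp.toLp 2 t, (hM _).2 ⟨s a, e.symm⟩⟩, ?_, ?_⟩
      · rw [hΦ]
        have h1 : m ⟨WithLp.toLp 2 t, (hM _).2 ⟨s a, e.symm⟩⟩ = s a := by
          apply Thm_io_inj d
          rw [hm]
          exact e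
        rw [h1]
        exact (hs a ha).2
      · intro i
        exact ht1 i
    obtain ⟨Γ, h1, h2⟩ := core k hk M Φ hfin hZ P hP hAM q hq (hkd.trans hdq)
    refine ⟨Γ, ?_, ?_⟩
    · have : (k : ℝ) ≤ (d : ℝ) := by exact_mod_cast hkd
      linarith
    · intro x hx
      obtain ⟨t, ht1, ht2⟩ := h2 x hx
      rw [hPK]
      refine ⟨m t, ?_, ?_⟩
      · have h3 : (fun i => ((m t) i : ℝ)) = Thm_io d (m t) := rfl
        rw [h3, hm, Thm_lin_apply]
        apply Thm_convex hk K hconv hsym c
        · intro i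
          obtain ⟨a, ha, hac⟩ := hcS' i
          rw [← hac]
          exact (hs a ha).1
        · have hkR : (0 : ℝ) < (k : ℝ) := by exact_mod_cast hk
          calc ∑ i, |(t : EuclideanSpace ℝ (Fin k)) i|
              ≤ ∑ _i : Fin k, 1 / (k : ℝ) := by
                apply Finset.sum_le_sum
                intro i _
                have h4 := PiLp.norm_apply_le (t : EuclideanSpace ℝ (Fin k)) i
                rw [Real.norm_eq_abs] at h4
                exact h4.trans ht2
            _ = 1 := by
                rw [Finset.sum_const, Finset.card_univ, Fintype.card_fin, nsmul_eq_mul]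
                field_simp
      · rw [← hΦ]
        exact ht1

end Pool.H84.CP
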