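import Pool.Agent.H97.CP.FinalA
import Pool.Agent.H84.CP.Thm

set_option autoImplicit false

/-!
A Bohr set contains a large generalised arithmetic progression, and the numerical part of the
comparison with the single parameter `t`.
-/

namespace Pool.H84.CP

open H97CP Pool.Agent.H33.QB

theorem gap_in_bohr {N : ℕ} [NeZero N] (Γ : Finset (ZMod N)) (ε : ℝ) (hε : 0 < ε) :
    ∃ (r : ℕ) (x : Fin r → ZMod N) (n : Fin r → ℕ), r ≤ Γ.card + 1 ∧
      (∀ y ∈ gap x n, ∀ γ ∈ Γ, bn (γ * y) ≤ ε) ∧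
      (N : ℝ) ≤ (gap x n).ncard * ((10 * (r : ℝ) ^ 3) ^ r * (1 / ε + 1) ^ Γ.card) := by
  obtain ⟨φ, S, hconv, hsym, hS⟩ := bohr_progr Γ ε
  have hne : (progr φ S).Nonempty := by
    rw [hS]
    refine ⟨0, ?_⟩
    intro γ _
    simp [nd, hε.le]
  obtain ⟨r, hr, D, hD1, hD2⟩ := H97CP.exists_red φ S hconv hsym hne
  obtain ⟨x, n, hg1, hg2⟩ := gap_red D
  refine ⟨r, x, n, hr, ?_, ?_⟩
  · intro y hy
    obtain ⟨z, hz1, hz2⟩ := hg1 y hy
    have h1 := hD2 z hz1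
    rw [hz2, hS] at h1
    exact h1
  · have h1 : (N : ℝ) ≤ (bohr Γ ε).ncard * (1 / ε + 1) ^ Γ.card := H97CP.bohr_card Γ ε hε
    have h2 : ((bohr Γ ε).ncard : ℝ) ≤ (10 * (r : ℝ) ^ 3) ^ r * (gap x n).ncard := by
      refine le_trans ?_ hg2
      rw [← hS]
      exact_mod_cast Set.ncard_le_ncard hD1 (Set.toFinite _)
    refine h1.trans ?_
    have h4 : (0 : ℝ) ≤ (1 / ε + 1) ^ Γ.card := by positivity
    calc ((bohr Γ ε).ncard : ℝ) * (1 / ε + 1) ^ Γ.card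
        ≤ ((10 * (r : ℝ) ^ 3) ^ r * (gap x n).ncard) * (1 / ε + 1) ^ Γ.card :=
          mul_le_mul_of_nonneg_right h2 h4
      _ = _ := by ring

/-- numerical part, Bohr set to progression -/
theorem num_gap (t ε : ℝ) (ht : 2 ≤ t) (hε : 1 / t ≤ ε) (m r : ℕ) (hm : (m : ℝ) ≤ t)
    (hr : (r : ℝ) ≤ t + 1) :
    (10 * (r : ℝ) ^ 3) ^ r * (1 / ε + 1) ^ m ≤ (26 * t) ^ (26 * t) := by
  have ht0 : 0 < t := by linarith
  have hε0 : 0 < ε := lt_of_lt_of_le (by positivity) hε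
  have h1 : 1 / ε ≤ t := by
    rw [div_le_iff₀ hε0]
    rw [div_le_iff₀ ht0] at hε
    linarith
  have h22 : (1 : ℝ) ≤ 26 * t := by linarith
  have a1 : 1 / ε + 1 ≤ 26 * t := by linarith
  have hr2 : (r : ℝ) ≤ 3 / 2 * t := by linarith
  have hr0 : (0 : ℝ) ≤ r := by positivity
  have a2 : 10 * (r : ℝ) ^ 3 ≤ (26 * t) ^ 3 := by
    have : (r : ℝ) ^ 3 ≤ (3 / 2 * t) ^ 3 := pow_le_pow_left₀ hr0 hr2 3
    have h3 : 0 < t ^ 3 := by positivity
    nlinarith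
  calc (10 * (r : ℝ) ^ 3) ^ r * (1 / ε + 1) ^ m
      ≤ ((26 * t) ^ 3) ^ r * (26 * t) ^ m :=
        mul_le_mul (pow_le_pow_left₀ (by positivity) a2 r)
          (pow_le_pow_left₀ (by positivity) a1 m) (by positivity) (by positivity)
    _ = (26 * t) ^ (((3 * r + m : ℕ) : ℝ)) := by
        rw [Real.rpow_natCast, pow_add, pow_mul]
    _ ≤ (26 * t) ^ (26 * t) := by
        apply Real.rpow_le_rpow_of_exponent_le h22
        push_cast
        linarith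

/-- numerical part, progression to Bohr set -/
theorem num_bohr {N : ℕ} [NeZero N] (t : ℝ) (ht : 2 ≤ t) (d p : ℕ) (hd : (d : ℝ) ≤ t)
    (hp : 0 < p) (hN : t ^ (-t) * (N : ℝ) ≤ p) :
    19 * (d : ℝ) + 2 + 2 * (Real.log ((N : ℝ) / (p : ℝ)) / Real.log (⌈t⌉₊ : ℕ)) ≤ 26 * t ∧
      1 / (26 * t) ≤ 1 / (2 * ((⌈t⌉₊ : ℕ) : ℝ)) := by
  have ht0 : 0 < t := by linarith
  have hq1 : t ≤ (⌈t⌉₊ : ℕ) := Nat.le_ceil t
  have hq2 : ((⌈t⌉₊ : ℕ) : ℝ) < t + 1 := Nat.ceil_lt_add_one ht0.le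
  have hlt : 0 < Real.log t := Real.log_pos (by linarith)
  have hlq : Real.log t ≤ Real.log (⌈t⌉₊ : ℕ) := Real.log_le_log ht0 hq1
  have hN0 : (0 : ℝ) < N := by exact_mod_cast Nat.pos_of_ne_zero (NeZero.ne N)
  have hp0 : (0 : ℝ) < p := by exact_mod_cast hp
  have h1 : (N : ℝ) / p ≤ t ^ t := by
    rw [div_le_iff₀ hp0]
    rw [Real.rpow_neg ht0.le, inv_mul_le_iff₀ (by positivity)] at hN
    exact hN
  have h2 : Real.log ((N : ℝ) / p) ≤ t * Real.log t := by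
    refine (Real.log_le_log (by positivity) h1).trans (le_of_eq ?_)
    rw [Real.log_rpow ht0]
  constructor
  · have h3 : Real.log ((N : ℝ) / p) / Real.log (⌈t⌉₊ : ℕ) ≤ t := by
      rw [div_le_iff₀ (by linarith)]
      have : t * Real.log t ≤ t * Real.log (⌈t⌉₊ : ℕ) := mul_le_mul_of_nonneg_left hlq ht0.le
      linarith
    linarith
  · apply one_div_le_one_div_of_le (by linarith)
    linarith

end Pool.H84.CP
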