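import Pool.Agent.H84.CP.Defs

set_option autoImplicit false

/-!
Row CP_PackN. Norm bound in the packing argument.

If `T μ = 0` then `μ = 0`. Otherwise let `i` be the largest index with `T μ i ≠ 0`; by `h1`
`lam i ≤ ‖μ‖`, and by monotonicity `|T μ l| ≤ 7 k * (lam i / (14 k^2)) + 3 k = lam i/(2k) + 3 k` for
`l ≤ i` (and `T μ l = 0` for `l > i`), so
`‖μ‖ ≤ √n * (lam i / (2 k) + 3 k) ≤ lam i / 2 + 3 k^2 ≤ ‖μ‖ / 2 + 3 k^2` (`√n ≤ k`).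
-/

namespace Pool.H84.CP

theorem pack_norm {E : Type*} [NormedAddCommGroup E] [NormedSpace ℝ E] (k n : ℕ) (hk : 1 ≤ k)
    (hn : n ≤ k) (T : E →ₗ[ℝ] (Fin n → ℝ)) (hT : ∀ x, ‖x‖ ^ 2 = ∑ i, T x i ^ 2)
    (lam : Fin n → ℝ) (hmono : Monotone lam) (hpos : ∀ i, 0 < lam i) (μ : E)
    (h1 : ∀ i, T μ i ≠ 0 → lam i ≤ ‖μ‖) (D : Fin n → ℝ)
    (hD : ∀ i, |D i| ≤ lam i / (14 * (k : ℝ) ^ 2))
    (hc : ∀ i, |T μ i - 7 * (k : ℝ) * D i| ≤ 3 * k) : ‖μ‖ ≤ 6 * (k : ℝ) ^ 2 := by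
  have hk1 : (1 : ℝ) ≤ k := by exact_mod_cast hk
  have hk0 : (0 : ℝ) < k := by linarith
  have hμ : 0 ≤ ‖μ‖ := norm_nonneg μ
  have hb : ∀ i, |T μ i| ≤ 3 * k + ‖μ‖ / (2 * k) := by
    intro i
    by_cases h0 : T μ i = 0
    · rw [h0, abs_zero]
      positivity
    · have h2 := h1 i h0
      have h3 : |7 * (k : ℝ) * D i| ≤ ‖μ‖ / (2 * k) := by
        rw [abs_mul, abs_of_nonneg (by positivity : (0 : ℝ) ≤ 7 * (k : ℝ))]
        calc 7 * (k : ℝ) * |D i| ≤ 7 * (k : ℝ) * (lam i / (14 * (k : ℝ) ^ 2)) :=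
              mul_le_mul_of_nonneg_left (hD i) (by positivity)
          _ = lam i / (2 * k) := by
              field_simp
              ring
          _ ≤ ‖μ‖ / (2 * k) := by
              apply div_le_div_of_nonneg_right h2 (by positivity)
      have h4 : |T μ i| ≤ |T μ i - 7 * (k : ℝ) * D i| + |7 * (k : ℝ) * D i| := by
        have := abs_add_le (T μ i - 7 * (k : ℝ) * D i) (7 * (k : ℝ) * D i)
        rwa [sub_add_cancel] at this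
      have h5 := hc i
      linarith
  have hc0 : 0 ≤ 3 * (k : ℝ) + ‖μ‖ / (2 * k) := by positivity
  have hs : ‖μ‖ ^ 2 ≤ (k * (3 * (k : ℝ) + ‖μ‖ / (2 * k))) ^ 2 := by
    rw [hT μ]
    calc ∑ i, T μ i ^ 2 ≤ ∑ _i : Fin n, (3 * (k : ℝ) + ‖μ‖ / (2 * k)) ^ 2 := by
          apply Finset.sum_le_sum
          intro i _
          rw [← sq_abs (T μ i)]
          exact pow_le_pow_left₀ (abs_nonneg _) (hb i) 2
      _ = n * (3 * (k : ℝ) + ‖μ‖ / (2 * k)) ^ 2 := by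
          rw [Finset.sum_const, Finset.card_univ, Fintype.card_fin, nsmul_eq_mul]
      _ ≤ (k : ℝ) ^ 2 * (3 * (k : ℝ) + ‖μ‖ / (2 * k)) ^ 2 := by
          apply mul_le_mul_of_nonneg_right _ (sq_nonneg _)
          have hn' : (n : ℝ) ≤ k := by exact_mod_cast hn
          nlinarith
      _ = (k * (3 * (k : ℝ) + ‖μ‖ / (2 * k))) ^ 2 := by ring
  have hle : ‖μ‖ ≤ k * (3 * (k : ℝ) + ‖μ‖ / (2 * k)) :=
    (pow_le_pow_iff_left₀ hμ (by positivity) two_ne_zero).1 hs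
  have he : k * (3 * (k : ℝ) + ‖μ‖ / (2 * k)) = 3 * (k : ℝ) ^ 2 + ‖μ‖ / 2 := by
    field_simp
  rw [he] at hle
  linarith

end Pool.H84.CP
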