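import Pool.Agent.H84.CP.Bn

set_option autoImplicit false

/-!
Row CP_Sub. A subgroup `H` of `ZMod N` containing a set `A` is cut out by few frequencies.
-/

namespace Pool.H84.CP

theorem Sub_mem {N : ℕ} [NeZero N] (H : AddSubgroup (ZMod N)) (x : ZMod N)
    (hx : (Nat.card H) • x = 0) : x ∈ H := by
  classical
  have hm : 0 < Nat.card H := Nat.card_pos
  have h1 := IsAddCyclic.card_nsmul_eq_zero_le (α := ZMod N) hm
  have h2 : (Finset.univ.filter (fun a : ZMod N => a ∈ H))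
      ⊆ Finset.univ.filter (fun a : ZMod N => (Nat.card H) • a = 0) := by
    intro a ha
    rw [Finset.mem_filter] at ha ⊢
    refine ⟨Finset.mem_univ _, ?_⟩
    have h3 : (Nat.card H) • (⟨a, ha.2⟩ : H) = 0 := by
      exact card_nsmul_eq_zero'
    have h4 : ((Nat.card H) • (⟨a, ha.2⟩ : H) : H).val = (0 : H).val := by rw [h3]
    exact h4
  have h5 : (Finset.univ.filter (fun a : ZMod N => a ∈ H)).card = Nat.card H := by
    rw [Nat.card_eq_fintype_card, Fintype.card_subtype]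
  have h6 := Finset.eq_of_subset_of_card_le h2 (by rw [h5]; exact h1)
  have h7 : x ∈ Finset.univ.filter (fun a : ZMod N => a ∈ H) := by
    rw [h6, Finset.mem_filter]
    exact ⟨Finset.mem_univ _, hx⟩
  exact (Finset.mem_filter.1 h7).2

theorem Sub_zero {N : ℕ} [NeZero N] (m h : ℕ) (hm : 0 < m) (hh : 0 < h) (hN : m * h = N)
    (x : ZMod N) (hb : bn ((m : ZMod N) * x) < 1 / (h : ℝ)) : (m : ZMod N) * x = 0 := by
  obtain ⟨y, hy⟩ : ∃ y, y = (m : ZMod N) * x := ⟨_, rfl⟩
  rw [← hy] at hb ⊢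
  have h1 : (h : ZMod N) * y = 0 := by
    rw [hy, ← mul_assoc, ← Nat.cast_mul, mul_comm h m, hN, ZMod.natCast_self, zero_mul]
  have h2 : N ∣ h * y.val := by
    rw [← ZMod.natCast_eq_zero_iff, Nat.cast_mul, ZMod.natCast_zmod_val]
    exact h1
  have h3 : m ∣ y.val := by
    have h21 : h * m ∣ h * y.val := by
      rw [mul_comm h m, hN]; exact h2
    exact Nat.dvd_of_mul_dvd_mul_left hh h21
  obtain ⟨k, hk⟩ := h3
  have hmR : (0 : ℝ) < m := by exact_mod_cast hm
  have hhR : (0 : ℝ) < h := by exact_mod_cast hh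
  have hNR : (N : ℝ) = m * h := by exact_mod_cast hN.symm
  have h4 : (y.val : ℝ) / (N : ℝ) = k / h := by
    rw [hk, hNR]
    push_cast
    rw [mul_div_mul_left _ _ hmR.ne']
  have h5 : (k : ℤ) - h * round ((k : ℝ) / h) = 0 := by
    by_contra hne
    have h6 : (1 : ℤ) ≤ |(k : ℤ) - h * round ((k : ℝ) / h)| := Int.one_le_abs hne
    have h7 : (1 : ℝ) ≤ |(k : ℝ) - h * (round ((k : ℝ) / h) : ℤ)| := by
      exact_mod_cast h6
    rw [bn, h4] at hb
    have h8 : |(k : ℝ) / h - ((round ((k : ℝ) / h) : ℤ) : ℝ)|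
        = |(k : ℝ) - h * (round ((k : ℝ) / h) : ℤ)| / h := by
      rw [← abs_of_pos hhR, ← abs_div, abs_of_pos hhR]
      congr 1
      field_simp
    rw [h8] at hb
    rw [div_lt_div_iff_of_pos_right hhR] at hb
    linarith
  have h9 : y.val < N := ZMod.val_lt y
  have h10 : k < h := by
    rw [hk, ← hN] at h9
    exact lt_of_mul_lt_mul_left h9 (Nat.zero_le _)
  have h11 : (h : ℤ) ∣ (k : ℤ) := ⟨round ((k : ℝ) / h), by linarith⟩
  have h12 : h ∣ k := by exact_mod_cast h11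
  have h13 : k = 0 := Nat.eq_zero_of_dvd_of_lt h12 h10
  rw [← ZMod.val_eq_zero, hk, h13, mul_zero]

theorem exists_sub {N : ℕ} [NeZero N] (H : AddSubgroup (ZMod N)) (A : Finset (ZMod N))
    (hA : A.Nonempty) (hAH : ∀ a ∈ A, a ∈ H) (q : ℕ) (hq : 2 ≤ q) :
    ∃ Γ : Finset (ZMod N),
      (Γ.card : ℝ) ≤ 2 + Real.log ((N : ℝ) / (A.card : ℝ)) / Real.log q ∧
      ∀ x : ZMod N, (∀ γ ∈ Γ, bn (γ * x) ≤ 1 / (2 * (q : ℝ))) → x ∈ H := by
  classical
  have hm : 0 < Nat.card H := Nat.card_pos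
  obtain ⟨h, hh⟩ : Nat.card H ∣ N := by
    have := AddSubgroup.card_addSubgroup_dvd_card H
    rwa [Nat.card_zmod] at this
  have hN0 : 0 < N := Nat.pos_of_ne_zero (NeZero.ne N)
  have hh0 : 0 < h := by
    rcases Nat.eq_zero_or_pos h with h0 | h0
    · rw [h0, mul_zero] at hh; omega
    · exact h0
  have hcard : A.card ≤ Nat.card H := by
    rw [Nat.card_eq_fintype_card, Fintype.card_subtype]
    apply Finset.card_le_card
    intro a ha
    rw [Finset.mem_filter]
    exact ⟨Finset.mem_univ _, hAH a ha⟩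
  have hA0 : 0 < A.card := hA.card_pos
  have hqR : (1 : ℝ) < q := by exact_mod_cast hq
  have hq0 : (0 : ℝ) < q := by linarith
  have hlq : 0 < Real.log q := Real.log_pos hqR
  have hhR : (0 : ℝ) < h := by exact_mod_cast hh0
  have hh1 : (1 : ℝ) ≤ h := by exact_mod_cast hh0
  have hmR : (0 : ℝ) < (Nat.card H : ℝ) := by exact_mod_cast hm
  have hAR : (0 : ℝ) < (A.card : ℝ) := by exact_mod_cast hA0
  have hNR : (N : ℝ) = (Nat.card H : ℝ) * h := by exact_mod_cast hh
  have hlh : 0 ≤ Real.log h := Real.log_nonneg hh1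
  have hle : (h : ℝ) ≤ (N : ℝ) / (A.card : ℝ) := by
    rw [le_div_iff₀ hAR, hNR, mul_comm]
    apply mul_le_mul_of_nonneg_right _ hhR.le
    exact_mod_cast hcard
  obtain ⟨J, hJ⟩ : ∃ J : ℕ, J = ⌈Real.log h / Real.log q⌉₊ := ⟨_, rfl⟩
  have hJ1 : (J : ℝ) < Real.log h / Real.log q + 1 := by
    rw [hJ]
    exact Nat.ceil_lt_add_one (div_nonneg hlh hlq.le)
  have hJ2 : Real.log h / Real.log q ≤ J := by
    rw [hJ]
    exact Nat.le_ceil _
  have hpow : (h : ℝ) ≤ (q : ℝ) ^ J := by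
    rw [div_le_iff₀ hlq] at hJ2
    rw [← Real.log_le_log_iff hhR (pow_pos hq0 J), Real.log_pow]
    exact hJ2
  refine ⟨(Finset.range (J + 1)).image
    (fun j => (q : ZMod N) ^ j * ((Nat.card H : ℕ) : ZMod N)), ?_, ?_⟩
  · have h1 : (((Finset.range (J + 1)).image
        (fun j => (q : ZMod N) ^ j * ((Nat.card H : ℕ) : ZMod N))).card : ℝ) ≤ J + 1 := by
      have := Finset.card_image_le (s := Finset.range (J + 1))
        (f := fun j => (q : ZMod N) ^ j * ((Nat.card H : ℕ) : ZMod N))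
      rw [Finset.card_range] at this
      exact_mod_cast this
    have h2 : Real.log h / Real.log q ≤ Real.log ((N : ℝ) / (A.card : ℝ)) / Real.log q :=
      div_le_div_of_nonneg_right (Real.log_le_log hhR hle) hlq.le
    linarith
  · intro x hx
    apply Sub_mem H x
    rw [nsmul_eq_mul]
    apply Sub_zero (Nat.card H) h hm hh0 hh.symm x
    have h1 := bn_digits q hq (((Nat.card H : ℕ) : ZMod N) * x) J (by
      intro j hj
      rw [← mul_assoc]
      apply hx
      rw [Finset.mem_image]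
      exact ⟨j, Finset.mem_range.2 (by omega), rfl⟩)
    refine lt_of_le_of_lt h1 ?_
    have h2 : (1 : ℝ) / (2 * (q : ℝ)) < 1 := by
      rw [div_lt_one (by linarith)]
      linarith
    calc 1 / (2 * (q : ℝ)) / (q : ℝ) ^ J < 1 / (q : ℝ) ^ J :=
          div_lt_div_of_pos_right h2 (pow_pos hq0 J)
      _ ≤ 1 / (h : ℝ) := one_div_le_one_div_of_le hhR hpow

end Pool.H84.CP
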